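import Pool.Agent.R936.Nc.Cor
import Pool.Agent.R936.Two.Two

/-!
# Linear maps on the first factor
-/

set_option linter.unusedVariables false
set_option linter.unusedSectionVars false

open CategoryTheory AlgebraicGeometry TensorProduct

universe u v w

namespace Pool.Agent.R936.Vh

section Alg

variable {K : Type*} [Field K] {L : Type*} [Field L] [Algebra K L] {V U : Type*} [AddCommGroup V]
  [Module K V] [AddCommGroup U] [Module K U]

/-- The preimage of a subspace commutes with the extension of the coefficients. -/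
lemma mem_comap_baseChange (f : V →ₗ[K] U) (A : Submodule K U) {x : L ⊗[K] V}
    (hx : f.baseChange L x ∈ A.baseChange L) : x ∈ (A.comap f).baseChange L := by
  let h : V →ₗ[K] U ⧸ A := A.mkQ ∘ₗ f
  have h1 : h.baseChange L x = 0 := by
    have h2 : h.baseChange L x = (A.mkQ).baseChange L (f.baseChange L x) := by
      rw [LinearMap.baseChange_comp]
      rfl
    rw [h2]
    have h3 : A.baseChange L ≤ LinearMap.ker ((A.mkQ).baseChange L) := by
      rw [Submodule.baseChange_eq_span]
      refine Submodule.span_le.2 ?_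
      rintro _ ⟨a, ha, rfl⟩
      show (A.mkQ).baseChange L (1 ⊗ₜ[K] a) = 0
      rw [LinearMap.baseChange_tmul, Submodule.mkQ_apply, (Submodule.Quotient.mk_eq_zero A).2 ha,
        TensorProduct.tmul_zero]
    exact h3 hx
  obtain ⟨s0, hs0⟩ := h.rangeRestrict.exists_rightInverse_of_surjective h.range_rangeRestrict
  obtain ⟨s, hs⟩ := LinearMap.exists_extend s0
  have hsh : ∀ v, h (s (h v)) = h v := by
    intro v
    have e1 : s (h v) = s0 (h.rangeRestrict v) := by
      rw [← hs]; rfl
    rw [e1]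
    have e2 := LinearMap.congr_fun hs0 (h.rangeRestrict v)
    exact congrArg Subtype.val e2
  let e : V →ₗ[K] V := LinearMap.id - s ∘ₗ h
  have he : ∀ v, e v ∈ A.comap f := by
    intro v
    rw [Submodule.mem_comap, ← Submodule.Quotient.mk_eq_zero]
    show h (v - s (h v)) = 0
    rw [map_sub, hsh, sub_self]
  have h4 : ∀ y : L ⊗[K] V, e.baseChange L y ∈ (A.comap f).baseChange L := by
    intro y
    induction y using TensorProduct.induction_on with
    | zero => rw [map_zero]; exact Submodule.zero_mem _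
    | tmul l v =>
      rw [LinearMap.baseChange_tmul]
      exact Submodule.tmul_mem_baseChange_of_mem l (he v)
    | add y z hy hz => rw [map_add]; exact Submodule.add_mem _ hy hz
  have h5 : e.baseChange L x = x := by
    have h6 : e.baseChange L x = x - s.baseChange L (h.baseChange L x) := by
      rw [LinearMap.baseChange_sub, LinearMap.baseChange_id, LinearMap.baseChange_comp]
      rfl
    rw [h6, h1, map_zero, sub_zero]
  rw [← h5]
  exact h4 x

end Alg

open Pool.Agent.H914 Pool.Agent.W534 VarClass Obj WeilCohomology Module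
open Pool.Agent.Y121
open Pool.Agent.Y163 (HBasis exists_hbasis)
open Pool.Agent.H281R3.HT
open Pool.Agent.R940 (em_SG mem_of_SG SG SG_ind)
open Pool.Agent.R936.Arb

variable {k : Type u} [Field k] {𝒱 : VarClass k} {ops : CycleOps 𝒱}

section

variable {W : WeilCohomology.{u, v} ops} {B Z P : 𝒱.Obj}

/-- The map `g ⊗ 1` on the cohomology of `B × P`. -/
noncomputable def lin (g : W.H B →ₗ[W.K] W.H Z) (P : 𝒱.Obj) :
    W.H (B.prod P) →ₗ[W.K] W.H (Z.prod P) :=
  (kappa W Z P).toLinearMap ∘ₗ (LinearMap.rTensor (W.H P) g) ∘ₗ (kappa W B P).symm.toLinearMap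

lemma lin_zw (g : W.H B →ₗ[W.K] W.H Z) (z : W.H B) (x : W.H P) :
    lin g P (zw z x) = zw (g z) x := by
  show kappa W Z P (LinearMap.rTensor (W.H P) g ((kappa W B P).symm (zw z x))) = _
  have h1 : (kappa W B P).symm (zw z x) = z ⊗ₜ[W.K] x := by
    rw [LinearEquiv.symm_apply_eq, kappa_tmul]
    rfl
  rw [h1, LinearMap.rTensor_tmul, kappa_tmul]
  rfl

/-- Induction over external products. -/
lemma zw_ind {p : W.H (B.prod P) → Prop} (hadd : ∀ a b, p a → p b → p (a + b)) (h0 : p 0)
    (h : ∀ z x, p (zw z x)) (c : W.H (B.prod P)) : p c := by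
  classical
  obtain ⟨ι, hι, ⟨b⟩⟩ := exists_hbasis W P
  cases nonempty_fintype ι
  obtain ⟨z, hz⟩ := exists_dec b.b c
  rw [hz]
  exact Finset.sum_induction _ p hadd h0 fun a _ => h _ _

/-- The components of a class are unique. -/
lemma dec_unique {κ : Type*} [Fintype κ] (b : Basis κ W.K (W.H P)) {z z' : κ → W.H Z}
    (h : ∑ a, zw (z a) (b a) = ∑ a, zw (z' a) (b a)) : z = z' := by
  classical
  have h1 : ∀ z : κ → W.H Z, ∑ a, zw (z a) (b a) = kappa W Z P (∑ a, z a ⊗ₜ[W.K] b a) := by
    intro z
    rw [map_sum]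
    exact Finset.sum_congr rfl fun a _ => by rw [kappa_tmul]; rfl
  rw [h1, h1] at h
  have h2 := (kappa W Z P).injective h
  funext a
  have h3 := congrArg (fun t => TensorProduct.rid W.K (W.H Z)
    (LinearMap.lTensor (W.H Z) (b.coord a) t)) h2
  beta_reduce at h3
  have h4 : ∀ z : κ → W.H Z, TensorProduct.rid W.K (W.H Z)
      (LinearMap.lTensor (W.H Z) (b.coord a) (∑ a, z a ⊗ₜ[W.K] b a)) = z a := by
    intro z
    rw [map_sum, map_sum, Finset.sum_eq_single a]
    · rw [LinearMap.lTensor_tmul, TensorProduct.rid_tmul, Basis.coord_apply, b.repr_self,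
        Finsupp.single_eq_same, one_smul]
    · intro a' _ hne
      rw [LinearMap.lTensor_tmul, TensorProduct.rid_tmul, Basis.coord_apply, b.repr_self,
        Finsupp.single_eq_of_ne hne.symm, zero_smul]
    · intro h
      exact absurd (Finset.mem_univ _) h
  rw [h4, h4] at h3
  exact h3

end

variable {T : AH.HodgeTheory ops} {B Z P Y Y' : 𝒱.Obj} {L : Type} [Field L] [Algebra T.W.K L]

/-- The map with extended coefficients. -/
noncomputable def gL (L : Type) [Field L] [Algebra T.W.K L] (g : T.W.H Y →ₗ[T.W.K] T.W.H Y') :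
    (baseW T.W L).H Y →ₗ[(baseW T.W L).K] (baseW T.W L).H Y' := g.baseChange L

lemma gL_em (g : T.W.H Y →ₗ[T.W.K] T.W.H Y') (x : T.W.H Y) :
    gL L g (AH.em T.W L x) = AH.em T.W L (g x) := LinearMap.baseChange_tmul (A := L) g 1 x

lemma mem_comap_SG (g : T.W.H Y →ₗ[T.W.K] T.W.H Y') (A : Submodule T.W.K (T.W.H Y'))
    {x : (baseW T.W L).H Y} (hx : gL L g x ∈ SG L A) : x ∈ SG L (A.comap g) :=
  mem_comap_baseChange (K := T.W.K) (L := L) g A hx

lemma em_zw (z : T.W.H Z) (x : T.W.H P) :
    AH.em T.W L (zw z x) = zw (W := baseW T.W L) (AH.em T.W L z) (AH.em T.W L x) := by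
  rw [zw, zw, AH.em_map, AH.em_map, ← AH.em_mul]

/-- Every class with extended coefficients is a combination of rational classes. -/
lemma gL_ind {p : (baseW T.W L).H Y → Prop} (hadd : ∀ a b, p a → p b → p (a + b)) (h0 : p 0)
    (hs : ∀ (t : (baseW T.W L).K) x, p x → p (t • x)) (h : ∀ c, p (AH.em T.W L c))
    (x : (baseW T.W L).H Y) : p x := by
  have hx : x ∈ SG L (⊤ : Submodule T.W.K (T.W.H Y)) := by
    have h1 : SG L (⊤ : Submodule T.W.K (T.W.H Y)) = ⊤ := by
      exact Submodule.baseChange_top (A := L) (M := T.W.H Y) (R := T.W.K)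
    rw [h1]
    exact Submodule.mem_top
  exact SG_ind (P := p) h0 hadd hs (fun a _ => h a) hx

/-- The map `g ⊗ 1` with extended coefficients. -/
lemma lin_em (g : T.W.H B →ₗ[T.W.K] T.W.H Z) (x : (baseW T.W L).H (B.prod P)) :
    lin (W := baseW T.W L) (gL L g) P x = gL L (lin g P) x := by
  refine gL_ind (p := fun x => lin (W := baseW T.W L) (gL L g) P x = gL L (lin g P) x) ?_ ?_ ?_ ?_ x
  · intro a b ha hb
    rw [map_add, map_add, ha, hb]
  · rw [map_zero, map_zero]
  · intro t x hx
    rw [map_smul, map_smul, hx]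
  · intro c
    refine zw_ind (p := fun c => lin (W := baseW T.W L) (gL L g) P (AH.em T.W L c) =
      gL L (lin g P) (AH.em T.W L c)) ?_ ?_ ?_ c
    · intro a b ha hb
      rw [AH.em_add, map_add, map_add, ha, hb]
    · rw [AH.em_zero, map_zero, map_zero]
    · intro z x
      rw [gL_em, lin_zw, em_zw, lin_zw, gL_em, ← em_zw]

end Pool.Agent.R936.Vh
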