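import Pool.Agent.R936.Two.Defs

/-!
# The noncommutative variational Hodge conjecture: definitions
-/

universe u

namespace Pool.Agent.R936.Vh.Ncv

open CategoryTheory H914 H914.VarClass H914.VarClass.Obj H914.WeilCohomology Y121.AHS

variable {k : Type u} [Field k] {𝒱 : VarClass k} {ops : CycleOps 𝒱}

/-- The product of the morphism `f : Z ⟶ B` and the identity of `P`. -/
noncomputable def times {Z B : 𝒱.Obj} (f : Z ⟶ B) (P : 𝒱.Obj) : Z.prod P ⟶ B.prod P :=
  Obj.lift (fst Z P ≫ f) (snd Z P)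

/-- The morphism `(z, z', p) ↦ (z', z)`. -/
noncomputable def toZZ (Z P : 𝒱.Obj) : Z.prod (Z.prod P) ⟶ Z.prod Z :=
  Obj.lift (snd Z (Z.prod P) ≫ fst Z P) (fst Z (Z.prod P))

/-- The morphism `(z, z', p) ↦ (z, p)`. -/
noncomputable def toZP (Z P : 𝒱.Obj) : Z.prod (Z.prod P) ⟶ Z.prod P :=
  Obj.lift (fst Z (Z.prod P)) (snd Z (Z.prod P) ≫ snd Z P)

/-- The cup product. -/
noncomputable def cup {W : WeilCohomology.{u, 0} ops} {Y : 𝒱.Obj} (a b : W.H Y) : W.H Y := a * b

/-- The image of the class `c` on `Z × P` under the correspondence `γ` (on `Z × Z`) times the diagonal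
of `P`: the push-forward along `(z, z', p) ↦ (z', p)` of the product of the pull-backs of `γ` and `c`. -/
noncomputable def comp {W : WeilCohomology.{u, 0} ops} {Z P : 𝒱.Obj} (γ : W.H (Z.prod Z))
    (c : W.H (Z.prod P)) : W.H (Z.prod P) :=
  W.push (snd Z (Z.prod P)) (cup (W.map (toZZ Z P) γ) (W.map (toZP Z P) c))

/-- Let `i : Z ⟶ B` be the inclusion of the fibre at `s` of a smooth projective family with the
compactification `B`, and `γ` the Mukai vector of the kernel of the projection of `D(Z)` to the fibre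
`𝒞_s` of an admissible subcategory `𝒞`. This is the value at `s` of the global section of the local
system with the fibres `K⁰_top(𝒞_t ⊠ D(P)) ⊗ ℚ` which is given by the class `c` on `B × P`. -/
noncomputable def sec {W : WeilCohomology.{u, 0} ops} {Z B P : 𝒱.Obj} (i : Z ⟶ B)
    (γ : W.H (Z.prod Z)) (c : W.H (B.prod P)) : W.H (Z.prod P) :=
  comp γ (W.map (times i P) c)

/-- The class `c` is a linear combination of classes of algebraic cycles. -/
def IsAlg {W : WeilCohomology.{u, 0} ops} {Y : 𝒱.Obj} (c : W.H Y) : Prop :=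
  c ∈ Submodule.span W.K {x | ∃ (j : ℕ) (z : Y.Cycles), Y.IsCyc j z ∧ W.cl Y z = x}

/-- The global sections which vanish at `0` vanish at `1`. -/
def Rigid {W : WeilCohomology.{u, 0} ops} {B Z₀ Z₁ : 𝒱.Obj} (i₀ : Z₀ ⟶ B) (i₁ : Z₁ ⟶ B)
    (γ₀ : W.H (Z₀.prod Z₀)) (γ₁ : W.H (Z₁.prod Z₁)) : Prop :=
  ∀ (P : 𝒱.Obj) (c : W.H (B.prod P)), sec i₀ γ₀ c = 0 → sec i₁ γ₁ c = 0

/-- The global sections of the local system `K⁰_top(𝒞_t ⊠ D(P)) ⊗ ℚ` which are algebraic at `0` are
algebraic at `1`: the noncommutative variational Hodge conjecture for `𝒞 ⊠ D(P)`, for these two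
points. (Classes of odd degree contribute nothing: as the odd part of an algebraic class vanishes, a
section given by an odd class which is algebraic at `0` vanishes at `0`, so at `1`.) -/
def NcVhc {W : WeilCohomology.{u, 0} ops} {B Z₀ Z₁ : 𝒱.Obj} (i₀ : Z₀ ⟶ B) (i₁ : Z₁ ⟶ B)
    (γ₀ : W.H (Z₀.prod Z₀)) (γ₁ : W.H (Z₁.prod Z₁)) (P : 𝒱.Obj) : Prop :=
  ∀ c : W.H (B.prod P), IsAlg (sec i₀ γ₀ c) → IsAlg (sec i₁ γ₁ c)

end Pool.Agent.R936.Vh.Ncv
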