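import Pool.Agent.R936.Vh.Fin
import Pool.Agent.R936.Vh.NcDefs
import Pool.Agent.R936.Nc.Fin

/-!
# The noncommutative variational Hodge conjecture for products with varieties of CM type
-/

set_option linter.unusedVariables false
set_option linter.unusedSectionVars false

open CategoryTheory AlgebraicGeometry TensorProduct

universe u v w

namespace Pool.Agent.R936.Vh.Ncv

open Pool.Agent.H914 Pool.Agent.W534 VarClass Obj WeilCohomology Module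
open Pool.Agent
open Pool.Agent.Y121 Pool.Agent.Y121.AHS
open Pool.Agent.H281R3.HT
open Pool.Agent.W536.RR (cl_mem_algSpan)
open Pool.Agent.R940 (NonnegTypes IsCM HodgeConj)
open Pool.Agent.R936
open Pool.Agent.R936.Hel2 (HodgeGroupDimLe prodOf_eq)
open Pool.Agent.R936.Arb
open Pool.Agent.R936.Nc (exists_act contr_add_right contr_zero_right contr_smul_right)

variable {k : Type u} [Field k] {𝒱 : VarClass k} {ops : CycleOps 𝒱} {I : Type w} {X : I → 𝒱.Obj}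
variable {T : AHS.HodgeTheory ops}

lemma isAlg_iff {Y : 𝒱.Obj} (c : T.W.H Y) : Ncv.IsAlg c ↔ c ∈ algSpan T.W Y := by
  have h : algSpan T.W Y = Submodule.span T.W.K {x | ∃ (j : ℕ) (z : Y.Cycles), Y.IsCyc j z ∧
      T.W.cl Y z = x} := by
    refine le_antisymm ?_ (Submodule.span_le.2 ?_)
    · intro c hc
      exact Pool.Agent.W536.RR.algSpan_induction (p := fun c => c ∈ Submodule.span T.W.K
          {x | ∃ (j : ℕ) (z : Y.Cycles), Y.IsCyc j z ∧ T.W.cl Y z = x})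
        (Submodule.zero_mem _) (fun _ _ => Submodule.add_mem _) (fun _ _ => Submodule.smul_mem _ _)
        (fun j w hw => Submodule.subset_span ⟨j, w, hw, rfl⟩) hc
    · rintro _ ⟨i, z, hz, rfl⟩
      exact cl_mem_algSpan hz
  rw [h]
  rfl

lemma times_eq {B Z : 𝒱.Obj} (f : Z ⟶ B) (P : 𝒱.Obj) : Ncv.times f P = Vh.times f P := rfl

lemma comp_eq {Z P : 𝒱.Obj} (γ : T.W.H (Z.prod Z)) (c : T.W.H (Z.prod P)) :
    Ncv.comp γ c = contr γ c := rfl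

lemma sec_lin {B Z : 𝒱.Obj} {γ : T.W.H (Z.prod Z)} {g : T.W.H Z →ₗ[T.W.K] T.W.H Z}
    (hg : ∀ (P : 𝒱.Obj) (z : T.W.H Z) (x : T.W.H P), contr γ (zw z x) = zw (g z) x) (i : Z ⟶ B)
    (P : 𝒱.Obj) (c : T.W.H (B.prod P)) :
    lin (g ∘ₗ (T.W.map i).toLinearMap) P c = Ncv.sec i γ c := by
  have hsec : ∀ c : T.W.H (B.prod P), Ncv.sec i γ c = contr γ (T.W.map (Vh.times i P) c) :=
    fun _ => rfl
  rw [hsec]
  refine zw_ind (p := fun c => lin (g ∘ₗ (T.W.map i).toLinearMap) P c =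
    contr γ (T.W.map (Vh.times i P) c)) ?_ ?_ ?_ c
  · intro a b ha hb
    rw [map_add, map_add, ha, hb, contr_add_right]
  · rw [map_zero, map_zero, contr_zero_right]
  · intro z x
    have h1 : T.W.map (Vh.times i P) (zw z x) = zw (T.W.map i z) x := by
      rw [← lin_map, lin_zw]
      rfl
    rw [h1, hg, lin_zw]
    rfl

theorem ncvhc_main' [Nonempty I] (hpos : NonnegTypes T) (hX : ∀ i, IsCM T (X i))
    {R : ℕ} (hR : HodgeGroupDimLe T X R)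
    (h : ∀ i L, (∃ F : Finset I, F.card ≤ R + 1 ∧ ∀ j ∈ i :: L, j ∈ F) →
      HodgeConj T (Hel2.prodOf X i L)) :
    ∃ (i0 : I) (L0 : List I), ∀ (B Z0 Z1 : 𝒱.Obj) (f0 : Z0 ⟶ B) (f1 : Z1 ⟶ B)
      (γ0 : T.W.H (Z0.prod Z0)) (γ1 : T.W.H (Z1.prod Z1)), Ncv.Rigid f0 f1 γ0 γ1 →
        (Ncv.NcVhc f0 f1 γ0 γ1 (Arb.powerOf X i0 L0 Z0.dim) ↔
          ∀ i L, Ncv.NcVhc f0 f1 γ0 γ1 (Hel2.prodOf X i L)) := by
  obtain ⟨i0, L0, h1⟩ := exists_vh hpos hX hR h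
  refine ⟨i0, L0, fun B Z0 Z1 f0 f1 γ0 γ1 hker => ⟨fun hV i L => ?_, fun hV => hV _ _⟩⟩
  obtain ⟨g0, hg0⟩ := exists_act γ0
  obtain ⟨g1, hg1⟩ := exists_act γ1
  intro c hc
  rw [isAlg_iff] at hc ⊢
  rw [← sec_lin hg0] at hc
  rw [← sec_lin hg1]
  by_cases h0 : (1 : T.W.H (Hel2.prodOf X i L)) = 0
  · have h2 : (1 : T.W.H (B.prod (Hel2.prodOf X i L))) = 0 := by
      have h3 := congrArg (T.W.map (snd B (Hel2.prodOf X i L))) h0
      rwa [map_one, map_zero] at h3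
    have h3 : c = 0 := by rw [← mul_one c, h2, mul_zero]
    rw [h3, map_zero]
    exact Submodule.zero_mem _
  refine h1 B Z0 Z1 _ _ ?_ ?_ i L c hc
  · intro x hx
    have h2 : Ncv.sec f0 γ0 (zw x (1 : T.W.H (Hel2.prodOf X i L))) = 0 := by
      rw [← sec_lin hg0, lin_zw, hx, zw_zero]
    have h3 := hker _ _ h2
    rw [← sec_lin hg1, lin_zw] at h3
    by_contra hne
    exact zw_ne hne h0 h3
  · intro c hc
    rw [sec_lin hg0, ← isAlg_iff] at hc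
    rw [sec_lin hg1, ← isAlg_iff]
    exact hV c hc

lemma ncvhc_main'' [Nonempty I] (hpos : NonnegTypes T)
    (hX : ∀ i, IsCM T (X i)) {R : ℕ} (hR : HodgeGroupDimLe T X R) (F : I → List I → 𝒱.Obj)
    (hF : F = Hel2.prodOf X)
    (h : ∀ i L, (∃ F : Finset I, F.card ≤ R + 1 ∧ ∀ j ∈ i :: L, j ∈ F) →
      Two.AllAlg (IsHodge T (F i L))) :
    ∃ (i0 : I) (L0 : List I), ∀ (B Z0 Z1 : 𝒱.Obj) (f0 : Z0 ⟶ B) (f1 : Z1 ⟶ B)
      (γ0 : T.W.H (Z0.prod Z0)) (γ1 : T.W.H (Z1.prod Z1)), Ncv.Rigid f0 f1 γ0 γ1 →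
        (Ncv.NcVhc f0 f1 γ0 γ1 (F i0 (L0 ++ (List.replicate (Z0.dim - 1) (i0 :: L0)).flatten)) ↔
          ∀ i L, Ncv.NcVhc f0 f1 γ0 γ1 (F i L)) := by
  subst hF
  exact ncvhc_main' hpos hX hR h

/-- **The noncommutative variational Hodge conjecture for products with varieties of CM type.** -/
theorem ncvhc_main [Nonempty I] (hpos : NonnegTypes T) (hX : ∀ i, IsCM T (X i))
    {R : ℕ} (hR : Two.HgDimLe T X R)
    (h : ∀ i L, (∃ F : Finset I, F.card ≤ R + 1 ∧ ∀ j ∈ i :: L, j ∈ F) →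
      Two.AllAlg (IsHodge T (Two.prodOf X i L))) :
    ∃ (i0 : I) (L0 : List I), ∀ (B Z0 Z1 : 𝒱.Obj) (f0 : Z0 ⟶ B) (f1 : Z1 ⟶ B)
      (γ0 : T.W.H (Z0.prod Z0)) (γ1 : T.W.H (Z1.prod Z1)), Ncv.Rigid f0 f1 γ0 γ1 →
        (Ncv.NcVhc f0 f1 γ0 γ1 (Two.powerOf X i0 L0 Z0.dim) ↔
          ∀ i L, Ncv.NcVhc f0 f1 γ0 γ1 (Two.prodOf X i L)) :=
  ncvhc_main'' hpos hX (show Hel2.HodgeGroupDimLe T X R from hR) (Two.prodOf X)
    (funext fun i => funext fun L => Two.prodOf_eq' X i L) h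

end Pool.Agent.R936.Vh.Ncv
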