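import Pool.Agent.R936.Vh.Ncd

/-!
# The classes on a product, class by class
-/

set_option linter.unusedVariables false
set_option linter.unusedSectionVars false

open CategoryTheory AlgebraicGeometry TensorProduct

universe u v w

namespace Pool.Agent.R936.Vh

open Pool.Agent.H914 Pool.Agent.W534 VarClass Obj WeilCohomology Module
open Pool.Agent.Y121
open Pool.Agent.Y163 (HBasis)
open Pool.Agent.H281R3.HT
open Pool.Agent.R940 (CMB csH csH_smul csH_map csH_em csH_gr csH_inj HSub em_HSub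
  cs_ind cs_tmul type_bound deg_eq repr_zero em_SG mem_of_SG pq_top SG SG_ind)
open Pool.Agent.R936.Hel
open Pool.Agent.R936.Hel2 (BB CC pt wt st st_cons csH_lwf lwf_type wt_sum rel_iff st_eq pt_nonneg
  st_nonneg st_add WB exists_WB csH_tr type_of_tr clL HG st_dual algCl)
open Pool.Agent.R936.Per (Fix hodge_desc HC KC dual_letter')
open Pool.Agent.R936.Arb

variable {k : Type u} [Field k] {𝒱 : VarClass k} {ops : CycleOps 𝒱}
variable {T : AH.HodgeTheory ops} {Y Z P Q : 𝒱.Obj} {L : Type} [Field L] [Algebra T.W.K L]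
  {I : Type w} {X : I → 𝒱.Obj} {ι : I → Type}

/-- The rational classes which describe a class with extended coefficients. -/
lemma coeffs_set (V : Submodule T.W.K (T.W.H Y)) {x : (baseW T.W L).H Y} (hx : x ∈ SG L V) :
    ∃ S : Set (T.W.H Y), S.Finite ∧ (∀ s ∈ S, s ∈ V) ∧
      ∀ G : Submodule T.W.K (T.W.H Y), x ∈ SG L G ↔ ∀ s ∈ S, s ∈ G := by
  classical
  obtain ⟨x', hx'⟩ : ∃ x' : L ⊗[T.W.K] V, V.subtype.baseChange L x' = x := hx
  let ℬ := Basis.ofVectorSpace T.W.K L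
  obtain ⟨c, hc⟩ := TensorProduct.eq_repr_basis_left ℬ x'
  have hx2 : x = ∑ i ∈ c.support, (ℬ i) ⊗ₜ[T.W.K] ((c i : V) : T.W.H Y) := by
    rw [← hx', ← hc, Finsupp.sum, map_sum]
    exact Finset.sum_congr rfl fun i _ => LinearMap.baseChange_tmul _ _ _
  refine ⟨(fun i => ((c i : V) : T.W.H Y)) '' (c.support : Set _), c.support.finite_toSet.image _,
    ?_, fun G => ⟨fun h => ?_, fun h => ?_⟩⟩
  · rintro _ ⟨i, _, rfl⟩
    exact (c i).2
  · rintro _ ⟨i, _, rfl⟩
    have h3 : G.baseChange L ≤ LinearMap.ker ((G.mkQ).baseChange L) := by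
      rw [Submodule.baseChange_eq_span]
      refine Submodule.span_le.2 ?_
      rintro _ ⟨a, ha, rfl⟩
      show (G.mkQ).baseChange L (1 ⊗ₜ[T.W.K] a) = 0
      rw [LinearMap.baseChange_tmul, Submodule.mkQ_apply, (Submodule.Quotient.mk_eq_zero G).2 ha,
        TensorProduct.tmul_zero]
    have h4 : (G.mkQ).baseChange L x = 0 := h3 h
    let f : V →ₗ[T.W.K] (T.W.H Y ⧸ G) := G.mkQ ∘ₗ V.subtype
    let b := c.mapRange f (map_zero f)
    have h5 : (b.sum fun i n => ℬ i ⊗ₜ[T.W.K] n) = 0 := by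
      rw [Finsupp.sum_mapRange_index (fun i => TensorProduct.tmul_zero _ _), Finsupp.sum]
      have h6 : (G.mkQ).baseChange L x = ∑ i ∈ c.support, ℬ i ⊗ₜ[T.W.K] f (c i) := by
        rw [hx2, map_sum]
        exact Finset.sum_congr rfl fun i _ => LinearMap.baseChange_tmul _ _ _
      rw [← h6, h4]
    have h6 := DFunLike.congr_fun (TensorProduct.sum_tmul_basis_left_eq_zero ℬ b h5) i
    have h7 : f (c i) = 0 := h6
    exact (Submodule.Quotient.mk_eq_zero G).1 h7
  · rw [hx2]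
    refine Submodule.sum_mem _ fun i hi => ?_
    exact Submodule.tmul_mem_baseChange_of_mem (ℬ i) (h _ ⟨i, hi, rfl⟩)

/-- The Hodge classes of degree `2 J`. -/
def hodgeSub (T : AH.HodgeTheory ops) (Y : 𝒱.Obj) (J : ℕ) : Submodule T.W.K (T.W.H Y) where
  carrier := {c | AH.IsHodge T Y J c}
  zero_mem' := AH.IsHodge.zero
  add_mem' := fun ha hb => ha.add hb
  smul_mem' := fun r _ ha => ha.smul r

section

variable (hpos : ∀ (Y : 𝒱.Obj) (p q : ℤ), p < 0 ∨ q < 0 → T.pq Y p q = ⊥)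

variable (M : ∀ i, CMB T (X i) L (ι i))

include hpos in
/-- **The reduction to one power, class by class.** -/
theorem cls_arb [∀ i, Finite (ι i)] (hfix : Fix T L) (σ₀ : L →ₐ[T.W.K] ℂ)
    {ℓ : ℕ} {i0 : I} {L' : List I}
    (hb : ∀ R : Multiset (Σ i, ι i), (∀ σ, |lam (wt M) R σ| ≤ (ℓ : ℕ)) →
      ∃ b : List (Σ i, ι i), b.map Sigma.fst = i0 :: L' ∧ lamL (wt M) b = lam (wt M) R)
    (hlev : ∀ (p q : ℤ), (ℓ : ℤ) < |p - q| → T.pq Z p q = ⊥) (i : I) (Lst : List I) {J : ℕ}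
    {c : T.W.H (Z.prod (Hel.prodOf X i Lst))} (hc : AH.IsHodge T _ J c) :
    ∃ S : Set (T.W.H (Z.prod (Hel.prodOf X i0 L'))), S.Finite ∧
      (∀ s ∈ S, ∃ J' : ℕ, AH.IsHodge T _ J' s) ∧ ∀ G : Cl T.W,
        (∀ R : Multiset (Σ i, ι i), toZ R ∈ Hel.Rel (wt M) 0 → AlgS (clL G L) (BB M) R) →
          (c ∈ G.C (Z.prod (Hel.prodOf X i Lst)) ↔
            ∀ s ∈ S, s ∈ G.C (Z.prod (Hel.prodOf X i0 L'))) := by
  classical
  obtain ⟨κ, hκ, N, hN⟩ := exists_WB (ops := ops) (X := X) (ι := ι) Lst i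
  cases nonempty_fintype κ
  obtain ⟨b, hb'⟩ := hN _ (BB M)
  obtain ⟨z, hz⟩ := exists_dec (W := baseW T.W L) b (AH.em T.W L c)
  have hz' : AH.em T.W L c = ∑ a, zw (z a) (lwf (BB M) (N a)) := by
    rw [hz]
    exact Finset.sum_congr rfl fun a _ => by rw [hb']
  -- one component
  have hcomp : ∀ a : κ, ∃ S : Set (T.W.H (Z.prod (Hel.prodOf X i0 L'))), S.Finite ∧
      (∀ s ∈ S, ∃ J' : ℕ, AH.IsHodge T _ J' s) ∧ ∀ G : Cl T.W,
        (∀ R : Multiset (Σ i, ι i), toZ R ∈ Hel.Rel (wt M) 0 → AlgS (clL G L) (BB M) R) →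
          ((c ∈ G.C (Z.prod (Hel.prodOf X i Lst)) →
            ∀ s ∈ S, s ∈ G.C (Z.prod (Hel.prodOf X i0 L'))) ∧
          ((∀ s ∈ S, s ∈ G.C (Z.prod (Hel.prodOf X i0 L'))) →
            zw (z a) (lwf (BB M) (N a)) ∈ (clL G L).C (Z.prod (Hel.prodOf X i Lst)))) := by
    intro a
    by_cases hza : z a = 0
    · refine ⟨∅, Set.finite_empty, fun s hs => absurd hs (Set.notMem_empty s), fun G _ =>
        ⟨fun _ s hs => absurd hs (Set.notMem_empty s), fun _ => ?_⟩⟩
      rw [hza, zw_zero]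
      exact Submodule.zero_mem _
    have htype := fun σ => comp_types hpos M hN hc hz' a σ
    obtain ⟨b1, hb1, hb2⟩ := hb (↑((N a).map Sigma.fst)) (fun σ => by
      by_contra hcon
      have h1 := hlev (J - st M σ true (N a)) (J - st M σ false (N a)) (by
        rw [lam_eq] at hcon
        push Not at hcon
        have e : (J : ℤ) - st M σ true (N a) - (J - st M σ false (N a)) =
          -(st M σ true (N a) - st M σ false (N a)) := by ring
        rw [e, abs_neg]
        exact hcon)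
      have h2 := htype σ
      rw [h1, Submodule.mem_bot] at h2
      exact hza (csH_inj σ (h2.trans (map_zero _).symm)))
    match b1, hb1, hb2 with
    | l :: b2, hb1, hb2 =>
      rw [List.map_cons] at hb1
      obtain ⟨h1, h2⟩ := List.cons.inj hb1
      subst h1
      subst h2
      obtain ⟨C, hC1, hC2, _⟩ := isCan_prod' (BB M) b2 l
      have hwt : ∀ σ, st M σ true (N a) - st M σ false (N a) =
          st M σ true C - st M σ false C := by
        intro σ
        rw [← lam_eq, ← hb2, ← lam_eq, hC1, lamL_coe]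
      obtain ⟨J', hJ'⟩ := comp_HSub hpos M σ₀ (Q := Hel.prodOf X l.1 (b2.map Sigma.fst)) hza
        htype hwt
      have hSG : zw (z a) (lwf (BB M) C) ∈
          SG L (hodgeSub T (Z.prod (Hel.prodOf X l.1 (b2.map Sigma.fst))) J') := by
        refine (Submodule.span_le (p := SG L (hodgeSub T _ J'))).2 ?_ (hodge_desc hfix σ₀ hJ')
        rintro _ ⟨c', hc', rfl⟩
        exact em_SG (G := hodgeSub T _ J') hc'
      obtain ⟨S, hS1, hS2, hS3⟩ := coeffs_set _ hSG
      refine ⟨S, hS1, fun s hs => ⟨J', hS2 s hs⟩, fun G hG => ⟨fun hcG => ?_, fun h => ?_⟩⟩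
      · refine (hS3 _).1 ?_
        obtain ⟨y, hy1, hy2⟩ := exists_word hpos M σ₀ hG b hb' (C := C) a hwt
        have hx : (∑ a, zw (z a) (lwf (BB M) (N a))) ∈ (clL G L).C _ := by
          rw [← hz']
          exact em_SG hcG
        have h5 := contr_mem (clL G L) hx hy1
        rw [hy2] at h5
        exact h5
      · exact way_back hpos M hG hC2 hwt ((hS3 _).2 h)
  choose S hS1 hS2 hS3 using hcomp
  refine ⟨⋃ a, S a, Set.finite_iUnion hS1, fun s hs => ?_, fun G hG => ⟨fun h s hs => ?_,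
    fun h => ?_⟩⟩
  · obtain ⟨a, ha⟩ := Set.mem_iUnion.1 hs
    exact hS2 a s ha
  · obtain ⟨a, ha⟩ := Set.mem_iUnion.1 hs
    exact (hS3 a G hG).1 h s ha
  · refine mem_of_SG (L := L) ?_
    rw [hz']
    exact Submodule.sum_mem _ fun a _ => (hS3 a G hG).2 fun s hs =>
      h s (Set.mem_iUnion.2 ⟨a, hs⟩)

end

end Pool.Agent.R936.Vh
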