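import Pool.Agent.R936.Two.Defs

/-!
# The variational Hodge conjecture: definitions
-/

universe u

namespace Pool.Agent.R936.Vh

open CategoryTheory H914 H914.VarClass H914.VarClass.Obj H914.WeilCohomology Y121.AHS

variable {k : Type u} [Field k] {𝒱 : VarClass k} {ops : CycleOps 𝒱}

/-- The product of the morphism `f : Z ⟶ B` and the identity of `P`. -/
noncomputable def times {Z B : 𝒱.Obj} (f : Z ⟶ B) (P : 𝒱.Obj) : Z.prod P ⟶ B.prod P :=
  Obj.lift (fst Z P ≫ f) (snd Z P)

/-- The class `c` is the class of an algebraic cycle of codimension `j` with rational coefficients. -/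
def IsAlg (T : HodgeTheory ops) (Y : 𝒱.Obj) (j : ℕ) (c : T.W.H Y) : Prop :=
  ∃ z : Y.Cycles, Y.IsCyc j z ∧ T.W.cl Y z = c

/-- All classes of degree `2 j` on `B × P` whose restriction to `Z₀ × P` is algebraic have an algebraic
restriction to `Z₁ × P`; here `i₀ : Z₀ ⟶ B` and `i₁ : Z₁ ⟶ B`. If `Z₀` and `Z₁` are two fibres of a smooth
projective family with the compactification `B`, then this is the variational Hodge conjecture for the
product of the family and `P`, for these two fibres: by the theorem of the fixed part, the global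
sections of the local system are the restrictions of the classes on `B × P`. -/
def Vhc (T : HodgeTheory ops) {B Z₀ Z₁ : 𝒱.Obj} (i₀ : Z₀ ⟶ B) (i₁ : Z₁ ⟶ B) (P : 𝒱.Obj) : Prop :=
  ∀ (j : ℕ), ∀ c ∈ T.W.gr (B.prod P) (2 * j),
    IsAlg T (Z₀.prod P) j (T.W.map (times i₀ P) c) → IsAlg T (Z₁.prod P) j (T.W.map (times i₁ P) c)

end Pool.Agent.R936.Vh
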