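import Pool.Agent.R936.Vh.Cls

/-!
# The number of exceptional classes on a product
-/

set_option linter.unusedVariables false
set_option linter.unusedSectionVars false

open CategoryTheory AlgebraicGeometry TensorProduct

universe u v w

namespace Pool.Agent.R936.Vh

open Pool.Agent.H914 Pool.Agent.W534 VarClass Obj WeilCohomology Module
open Pool.Agent.Y121
open Pool.Agent.Y163 (HBasis)
open Pool.Agent.H281R3.HT
open Pool.Agent.R940 (CMB csH csH_smul csH_map csH_em csH_gr csH_inj HSub em_HSub
  cs_ind cs_tmul type_bound deg_eq repr_zero em_SG mem_of_SG pq_top SG SG_ind)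
open Pool.Agent.R936.Hel
open Pool.Agent.R936.Hel2 (BB CC pt wt st st_cons csH_lwf lwf_type wt_sum rel_iff st_eq pt_nonneg
  st_nonneg st_add WB exists_WB csH_tr type_of_tr clL HG st_dual algCl)
open Pool.Agent.R936.Per (Fix hodge_desc HC KC dual_letter')
open Pool.Agent.R936.Arb

variable {k : Type u} [Field k] {𝒱 : VarClass k} {ops : CycleOps 𝒱}

section

variable {W : WeilCohomology.{u, v} ops} {Z P Q : 𝒱.Obj}

/-- The components of a class, as linear maps. -/
lemma exists_dec_lin {κ : Type*} [Fintype κ] (b : Basis κ W.K (W.H P)) :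
    ∃ φ : κ → (W.H (Z.prod P) →ₗ[W.K] W.H Z), ∀ x, x = ∑ a, zw (φ a x) (b a) := by
  choose z hz using fun x : W.H (Z.prod P) => exists_dec b x
  have hadd : ∀ x y, z (x + y) = z x + z y := by
    intro x y
    apply dec_unique b
    rw [← hz]
    conv_lhs => rw [hz x, hz y]
    rw [← Finset.sum_add_distrib]
    exact Finset.sum_congr rfl fun a _ => by rw [Pi.add_apply, zw_add]
  have hsmul : ∀ (t : W.K) x, z (t • x) = t • z x := by
    intro t x
    apply dec_unique b
    rw [← hz]
    conv_lhs => rw [hz x]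
    rw [Finset.smul_sum]
    exact Finset.sum_congr rfl fun a _ => by rw [Pi.smul_apply, zw_smul]
  refine ⟨fun a => ⟨⟨fun x => z x a, fun x y => ?_⟩, fun t x => ?_⟩, fun x => hz x⟩
  · rw [hadd, Pi.add_apply]
  · show z (t • x) a = t • z x a
    rw [hsmul, Pi.smul_apply]

lemma contr_smul (c : W.K) (x : W.H (Z.prod P)) (y : W.H (P.prod Q)) :
    contr (c • x) y = c • contr x y := by
  rw [contr, map_smul, smul_mul_assoc, map_smul]; rfl

/-- The contraction with a class, as a linear map. -/
noncomputable def contrL (Z : 𝒱.Obj) (y : W.H (P.prod Q)) :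
    W.H (Z.prod P) →ₗ[W.K] W.H (Z.prod Q) where
  toFun x := contr x y
  map_add' x x' := contr_add x x' y
  map_smul' c x := contr_smul c x y

/-- Dimensions and finitely many linear maps. -/
lemma finrank_le_of_maps {K V U κ : Type*} [Field K] [AddCommGroup V] [Module K V]
    [Module.Finite K V] [AddCommGroup U] [Module K U] [Module.Finite K U] [Fintype κ]
    {H G : Submodule K V} {H' G' : Submodule K U} (hG' : G' ≤ H') (F : κ → V →ₗ[K] U)
    (h1 : ∀ a, ∀ x ∈ H, F a x ∈ H') (h2 : ∀ x ∈ H, (∀ a, F a x ∈ G') → x ∈ G) :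
    finrank K H + Fintype.card κ * finrank K G' ≤ finrank K G + Fintype.card κ * finrank K H' := by
  classical
  let q : U →ₗ[K] U ⧸ G' := G'.mkQ
  let Ψ : H →ₗ[K] (κ → (H'.map q)) :=
    LinearMap.pi fun a => (q ∘ₗ F a ∘ₗ H.subtype).codRestrict (H'.map q) fun x =>
      Submodule.mem_map_of_mem (h1 a x x.2)
  have e1 := LinearMap.finrank_range_add_finrank_ker Ψ
  have e2 : finrank K (LinearMap.range Ψ) ≤ Fintype.card κ * finrank K (H'.map q) := by
    refine (Submodule.finrank_le _).trans ?_
    rw [Module.finrank_pi_fintype]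
    simp
  have e3 : finrank K (LinearMap.ker Ψ) ≤ finrank K G := by
    have h3 : ∀ x : LinearMap.ker Ψ, ((x : H) : V) ∈ G := by
      intro x
      refine h2 _ (x : H).2 fun a => ?_
      have h4 := congrFun (LinearMap.mem_ker.1 x.2) a
      have h5 := congrArg Subtype.val h4
      exact (Submodule.Quotient.mk_eq_zero G').1 h5
    let j : LinearMap.ker Ψ →ₗ[K] G := (H.subtype ∘ₗ (LinearMap.ker Ψ).subtype).codRestrict G h3
    refine LinearMap.finrank_le_finrank_of_injective (f := j) fun x y hxy => ?_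
    have h4 := congrArg Subtype.val hxy
    exact Subtype.ext (Subtype.ext h4)
  have e4 : finrank K (H'.map q) + finrank K G' ≤ finrank K H' := by
    let r : H' →ₗ[K] (H'.map q) := (q ∘ₗ H'.subtype).codRestrict (H'.map q) fun x =>
      Submodule.mem_map_of_mem x.2
    have h5 := LinearMap.finrank_range_add_finrank_ker r
    have h6 : LinearMap.range r = ⊤ := by
      rw [LinearMap.range_eq_top]
      rintro ⟨y, x, hx, rfl⟩
      exact ⟨⟨x, hx⟩, rfl⟩
    rw [h6, finrank_top] at h5
    have h7 : finrank K G' ≤ finrank K (LinearMap.ker r) := by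
      let j : G' →ₗ[K] LinearMap.ker r := LinearMap.codRestrict _
        (G'.subtype.codRestrict H' fun x => hG' x.2) fun x => by
          rw [LinearMap.mem_ker]
          exact Subtype.ext ((Submodule.Quotient.mk_eq_zero G').2 x.2)
      refine LinearMap.finrank_le_finrank_of_injective (f := j) fun x y hxy => ?_
      have h4 := congrArg (fun t : LinearMap.ker r => ((t : H') : U)) hxy
      exact Subtype.ext h4
    omega
  nlinarith [e1, e2, e3, Nat.mul_le_mul_left (Fintype.card κ) e4]

end

variable {T : AH.HodgeTheory ops} {Y Z P Q : 𝒱.Obj} {L : Type} [Field L] [Algebra T.W.K L]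
  {I : Type w} {X : I → 𝒱.Obj} {ι : I → Type}

lemma finrank_SG (V : Submodule T.W.K (T.W.H Y)) :
    finrank (baseW T.W L).K (SG L V) = finrank T.W.K V := by
  have h1 : SG L V = LinearMap.range (V.subtype.baseChange L) := rfl
  have h2 : Function.Injective (V.subtype.baseChange L) :=
    Module.Flat.lTensor_preserves_injective_linearMap (M := L) V.subtype V.injective_subtype
  have h3 : finrank L (LinearMap.range (V.subtype.baseChange L)) = finrank L (L ⊗[T.W.K] V) :=
    LinearMap.finrank_range_of_inj h2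
  rw [Module.finrank_baseChange] at h3
  exact h3

section

variable (hpos : ∀ (Y : 𝒱.Obj) (p q : ℤ), p < 0 ∨ q < 0 → T.pq Y p q = ⊥)

variable (M : ∀ i, CMB T (X i) L (ι i))

include hpos in
/-- **The number of exceptional classes.** -/
theorem ex_arb [∀ i, Finite (ι i)] (hfix : Fix T L) (σ₀ : L →ₐ[T.W.K] ℂ)
    {ℓ : ℕ} {i0 : I} {L' : List I}
    (hb : ∀ R : Multiset (Σ i, ι i), (∀ σ, |lam (wt M) R σ| ≤ (ℓ : ℕ)) →
      ∃ b : List (Σ i, ι i), b.map Sigma.fst = i0 :: L' ∧ lamL (wt M) b = lam (wt M) R)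
    (hlev : ∀ (p q : ℤ), (ℓ : ℤ) < |p - q| → T.pq Z p q = ⊥) {G H : Cl T.W}
    (hG : ∀ R : Multiset (Σ i, ι i), toZ R ∈ Hel.Rel (wt M) 0 → AlgS (clL G L) (BB M) R)
    (hGH : ∀ Y, G.C Y ≤ H.C Y)
    (hH : ∀ Y, H.C Y = Submodule.span T.W.K {c | ∃ J, AH.IsHodge T Y J c})
    (i : I) (Lst : List I) :
    finrank T.W.K (H.C (Z.prod (Hel.prodOf X i Lst))) +
        finrank T.W.K (T.W.H (Hel.prodOf X i Lst)) *
          finrank T.W.K (G.C (Z.prod (Hel.prodOf X i0 L'))) ≤
      finrank T.W.K (G.C (Z.prod (Hel.prodOf X i Lst))) +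
        finrank T.W.K (T.W.H (Hel.prodOf X i Lst)) *
          finrank T.W.K (H.C (Z.prod (Hel.prodOf X i0 L'))) := by
  classical
  obtain ⟨κ, hκ, N, hN⟩ := exists_WB (ops := ops) (X := X) (ι := ι) Lst i
  cases nonempty_fintype κ
  obtain ⟨b, hb'⟩ := hN _ (BB M)
  obtain ⟨φ, hφ⟩ := exists_dec_lin (W := baseW T.W L) (Z := Z) b
  have hcard : finrank T.W.K (T.W.H (Hel.prodOf X i Lst)) = Fintype.card κ := by
    have h1 := Module.finrank_eq_card_basis b
    have h2 : finrank L (L ⊗[T.W.K] (T.W.H (Hel.prodOf X i Lst))) =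
      finrank T.W.K (T.W.H (Hel.prodOf X i Lst)) := Module.finrank_baseChange
    rw [← h2]
    exact h1
  rw [hcard, ← finrank_SG (L := L), ← finrank_SG (L := L), ← finrank_SG (L := L),
    ← finrank_SG (L := L)]
  have hle : ∀ Y, SG L (G.C Y) ≤ SG L (H.C Y) := by
    intro Y x hx
    refine SG_ind (P := fun x => x ∈ SG L (H.C Y)) (Submodule.zero_mem _)
      (fun a b ha hb => Submodule.add_mem _ ha hb) (fun t a ha => Submodule.smul_mem _ _ ha)
      (fun a ha => em_SG (hGH Y ha)) hx
  -- the components with large weights vanish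
  have hzero : ∀ a, ¬ (∀ σ, |lam (wt M) (↑((N a).map Sigma.fst)) σ| ≤ (ℓ : ℕ)) →
      ∀ x ∈ SG L (H.C (Z.prod (Hel.prodOf X i Lst))), φ a x = 0 := by
    intro a ha x hx
    refine SG_ind (P := fun x => φ a x = 0) (map_zero _)
      (fun x y hx hy => by rw [map_add, hx, hy, add_zero])
      (fun t x hx => by rw [map_smul, hx, smul_zero]) (fun c hc => ?_) hx
    rw [hH] at hc
    refine Submodule.span_induction (p := fun c _ => φ a (AH.em T.W L c) = 0) ?_ ?_ ?_ ?_ hc
    · rintro c ⟨J, hJ⟩
      have hz' : AH.em T.W L c = ∑ a, zw (φ a (AH.em T.W L c)) (lwf (BB M) (N a)) := by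
        conv_lhs => rw [hφ (AH.em T.W L c)]
        exact Finset.sum_congr rfl fun a _ => by rw [hb']
      by_contra hne
      apply ha
      intro σ
      by_contra hcon
      have htype := comp_types hpos M hN hJ hz' a σ
      have h1 := hlev (J - st M σ true (N a)) (J - st M σ false (N a)) (by
        rw [lam_eq] at hcon
        push Not at hcon
        have e : (J : ℤ) - st M σ true (N a) - (J - st M σ false (N a)) =
          -(st M σ true (N a) - st M σ false (N a)) := by ring
        rw [e, abs_neg]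
        exact hcon)
      rw [h1, Submodule.mem_bot] at htype
      exact hne (csH_inj σ (htype.trans (map_zero _).symm))
    · rw [AH.em_zero, map_zero]
    · intro x y _ _ hx hy
      rw [AH.em_add, map_add, hx, hy, add_zero]
    · intro t x _ hx
      rw [AH.em_smul, map_smul, hx, smul_zero]
  -- the maps
  have hF : ∀ a, ∃ F : (baseW T.W L).H (Z.prod (Hel.prodOf X i Lst)) →ₗ[(baseW T.W L).K]
      (baseW T.W L).H (Z.prod (Hel.prodOf X i0 L')),
      (∀ x ∈ SG L (H.C (Z.prod (Hel.prodOf X i Lst))),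
        F x ∈ SG L (H.C (Z.prod (Hel.prodOf X i0 L')))) ∧
      ∀ x ∈ SG L (H.C (Z.prod (Hel.prodOf X i Lst))),
        F x ∈ SG L (G.C (Z.prod (Hel.prodOf X i0 L'))) →
          zw (φ a x) (lwf (BB M) (N a)) ∈ SG L (G.C (Z.prod (Hel.prodOf X i Lst))) := by
    intro a
    by_cases ha : ∀ σ, |lam (wt M) (↑((N a).map Sigma.fst)) σ| ≤ (ℓ : ℕ)
    · obtain ⟨b1, hb1, hb2⟩ := hb _ ha
      match b1, hb1, hb2 with
      | l :: b2, hb1, hb2 =>
        rw [List.map_cons] at hb1
        obtain ⟨h1, h2⟩ := List.cons.inj hb1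
        subst h1
        subst h2
        obtain ⟨C, hC1, hC2, _⟩ := isCan_prod' (BB M) b2 l
        have hwt : ∀ σ, st M σ true (N a) - st M σ false (N a) =
            st M σ true C - st M σ false C := by
          intro σ
          rw [← lam_eq, ← hb2, ← lam_eq, hC1, lamL_coe]
        obtain ⟨y, hy1, hy2⟩ := exists_word hpos M σ₀ hG b hb' (C := C) a hwt
        refine ⟨contrL Z y, fun x hx => contr_mem (clL H L) hx (hle _ hy1), fun x hx hxG => ?_⟩
        have h3 : contr x y = zw (φ a x) (lwf (BB M) C) := by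
          rw [← hy2 Z fun a => φ a x]
          conv_lhs => rw [hφ x]
          exact congrArg (fun t => contr t y) (Finset.sum_congr rfl fun a _ => by rw [hb'])
        have h4 : zw (φ a x) (lwf (BB M) C) ∈ (clL G L).C _ := by
          rw [← h3]
          exact hxG
        exact way_back hpos M hG hC2 hwt h4
    · refine ⟨0, fun x hx => Submodule.zero_mem _, fun x hx _ => ?_⟩
      rw [hzero a ha x hx, zw_zero]
      exact Submodule.zero_mem _
  choose F hF1 hF2 using hF
  refine finrank_le_of_maps (hle _) F hF1 fun x hx hxG => ?_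
  rw [hφ x]
  exact Submodule.sum_mem _ fun a _ => by
    rw [hb']
    exact hF2 a x hx (hxG a)

end

end Pool.Agent.R936.Vh
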