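import Pool.Agent.R936.Vh.Main
import Pool.Agent.R936.Vh.Defs
import Pool.Agent.R936.Two.Fin

/-!
# The variational Hodge conjecture for products with varieties of CM type: the theorem
-/

set_option linter.unusedVariables false
set_option linter.unusedSectionVars false

open CategoryTheory AlgebraicGeometry TensorProduct

universe u v w

namespace Pool.Agent.R936.Vh

open Pool.Agent.H914 Pool.Agent.W534 VarClass Obj WeilCohomology Module
open Pool.Agent
open Pool.Agent.Y121 Pool.Agent.Y121.AHS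
open Pool.Agent.Y163 (HBasis)
open Pool.Agent.H281R3.HT
open Pool.Agent.Y133.Half (ClassPred spanCycles_of_algSpan)
open Pool.Agent.W536.RR (cl_mem_algSpan)
open Pool.Agent.R940 (CMB csH csH_smul csH_map csH_em csH_gr csH_inj HSub em_HSub
  cs_ind cs_tmul type_bound deg_eq repr_zero em_SG mem_of_SG pq_top SG SG_ind
  NonnegTypes IsCM HodgeConj exists_cycle)
open Pool.Agent.R936
open Pool.Agent.R936.Hel (Cl toZ Lt IsCan isCan_prod' lwf)
open Pool.Agent.R936.Hel2 (BB CC opL pt wt st rank_le HG HodgeGroupDimLe IsFactorBound Few prodOf_eq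
  hodge_red algCl clL)
open Pool.Agent.R936.Per (Fix HC KC dual_letter' exists_cmb')
open Pool.Agent.R936.Arb

variable {k : Type u} [Field k] {𝒱 : VarClass k} {ops : CycleOps 𝒱} {I : Type w} {X : I → 𝒱.Obj}

section AH

variable {T : AH.HodgeTheory ops}

theorem exists_uniV [Nonempty I]
    (hpos : ∀ (Y : 𝒱.Obj) (p q : ℤ), p < 0 ∨ q < 0 → T.pq Y p q = ⊥)
    {f : ∀ i, T.W.H (X i) →ₗ[T.W.K] T.W.H (X i)} (hf : ∀ i, Squarefree (LinearMap.charpoly (f i)))
    (hgr : ∀ i, ∀ j, ∀ x ∈ T.W.gr (X i) j, f i x ∈ T.W.gr (X i) j)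
    (hpq : ∀ i, ∀ (p q : ℤ), ∀ x : HC T (X i), x ∈ T.pq (X i) p q →
      opL ℂ (f i) x ∈ T.pq (X i) p q)
    {R : ℕ} {E : Fin R → ∀ i, (T.W.H (X i) →ₗ[T.W.K] T.W.H (X i))} {z : Fin R → ℂ}
    (hE : ∀ (i : I) (p q : ℤ) (x : (baseW T.W ℂ).H (X i)), x ∈ T.pq (X i) p q →
      ∑ j, (show (baseW T.W ℂ).K from z j) • opL ℂ (E j i) x =
        (show (baseW T.W ℂ).K from ((p - q : ℤ) : ℂ)) • x) :
    ∃ (i0 : I) (L0 : List I),
      ∀ (G : Cl T.W), (∀ i L, HG G (Hel.prodOf X i L)) →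
        (∀ Y, ∀ y ∈ G.C Y, y ∈ Submodule.span T.W.K {c | ∃ J, AH.IsHodge T Y J c}) →
        ∀ (B Z0 Z1 : 𝒱.Obj) (g0 : T.W.H B →ₗ[T.W.K] T.W.H Z0) (g1 : T.W.H B →ₗ[T.W.K] T.W.H Z1),
          (∀ x, g0 x = 0 → g1 x = 0) →
          (∀ c, lin g0 _ c ∈ G.C (Z0.prod (Hel.prodOf X i0 (powL L0 i0 Z0.dim))) →
            lin g1 _ c ∈ G.C (Z1.prod (Hel.prodOf X i0 (powL L0 i0 Z0.dim)))) →
          ∀ i Lst c, lin g0 _ c ∈ G.C (Z0.prod (Hel.prodOf X i Lst)) →
            lin g1 _ c ∈ G.C (Z1.prod (Hel.prodOf X i Lst)) := by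
  classical
  obtain ⟨i1⟩ := ‹Nonempty I›
  let L := AlgebraicClosure T.W.K
  have hchar : CharZero L := charZero_of_injective_algebraMap (algebraMap T.W.K L).injective
  let σ₀ : L →ₐ[T.W.K] ℂ := IsAlgClosed.lift
  have hfix : Fix T L := by
    intro x hx
    have h1 := (InfiniteGalois.mem_bot_iff_fixed (k := T.W.K) (K := L) x).2 fun τ => hx τ
    exact IntermediateField.mem_bot.1 h1
  have hM := fun i : I => exists_cmb' (T := T) (X := X i) (L := L) (f := f i) (hf i) (hgr i)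
      (fun p q x hx => hpq i p q x hx) (IsAlgClosed.splits _)
  choose M μ hμ hMμ using hM
  rcases isEmpty_or_nonempty (Σ i, Fin (finrank T.W.K (T.W.H (X i)))) with hem | ⟨⟨l0⟩⟩
  · -- no letters
    have h0 : ∀ (Z : 𝒱.Obj) i Lst (c : T.W.H (Z.prod (Hel.prodOf X i Lst))), c = 0 := by
      intro Z i Lst c
      obtain ⟨g⟩ := exists_pr X Lst i
      have h1 : (1 : T.W.H (X i)) = 0 := by
        apply AH.em_injective (W := T.W) (L := L)
        have h2 := (M i).B.b.sum_repr (AH.em T.W L 1)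
        rw [← h2]
        exact Finset.sum_eq_zero fun a _ => (hem.false ⟨i, a⟩).elim
      have h2 : (1 : T.W.H (Z.prod (Hel.prodOf X i Lst))) = 0 := by
        have h3 := congrArg (T.W.map (snd Z _ ≫ g)) h1
        rwa [map_one, map_zero] at h3
      rw [← mul_one c, h2, mul_zero]
    refine ⟨i1, [], fun G _ _ B Z0 Z1 g0 g1 _ _ i Lst c _ => ?_⟩
    rw [h0 _ _ _ c, map_zero]
    exact Submodule.zero_mem _
  -- dual letters
  have hd := fun l : (Σ i, Fin (finrank T.W.K (T.W.H (X i)))) => dual_letter' (M := M) hpos l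
  choose st' hst1 hst2 using hd
  have hst : ∀ l, Hel2.wt M (st' l) = - Hel2.wt M l := by
    intro l
    funext σ
    have h1 := hst2 l σ true
    have h2 := hst2 l σ false
    rw [Pi.neg_apply, Hel2.wt, Hel2.wt]
    omega
  -- letters of degree zero
  have hz : ∀ l : (Σ i, Fin (finrank T.W.K (T.W.H (X i)))), HasZ (Hel2.wt M) l.1 := by
    intro l
    by_contra hcon
    have h1 : ∀ a, (M l.1).B.deg a ≠ 0 := by
      intro a ha
      apply hcon
      refine ⟨a, ?_⟩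
      funext σ
      obtain ⟨h1, h2, h3⟩ := deg_eq (M l.1) hpos σ a
      rw [ha, Nat.cast_zero] at h1
      have h4 : pt M σ true ⟨l.1, a⟩ = (M l.1).p σ a := rfl
      have h5 : pt M σ false ⟨l.1, a⟩ = (M l.1).q σ a := rfl
      rw [Hel2.wt, h4, h5, Pi.zero_apply]
      omega
    have h2 : ∀ a, (M l.1).B.b.repr (1 : (baseW T.W L).H (X l.1)) a = 0 := fun a =>
      repr_zero ((baseW T.W L).isInternal (X l.1)).submodule_iSupIndep (M l.1).B.b
        (fun a => (M l.1).B.deg a) (fun a => (M l.1).B.mem a) ((baseW T.W L).one_mem _) (h1 a)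
    have h3 : (1 : (baseW T.W L).H (X l.1)) = 0 := by
      rw [← (M l.1).B.b.sum_repr 1]
      exact Finset.sum_eq_zero fun a _ => by rw [h2, zero_smul]
    apply (M l.1).B.b.ne_zero l.2
    rw [← mul_one ((M l.1).B.b l.2), h3, mul_zero]
  obtain ⟨L0, hL0⟩ := exists_product (h := Hel2.wt M) (fun s => rank_le M hE s) hst hz l0
  refine ⟨l0.1, L0, fun G hG hGH B Z0 Z1 g0 g1 hker hV i Lst c hc => ?_⟩
  exact vh_arb hpos M σ₀ (fun Rl hRl => algS_of_HG M hfix σ₀ hpos hG hRl) hGH g0 g1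
    (fun Rl hRl => hL0 Z0.dim Rl hRl) hker hV i Lst hc

end AH

section Conv

variable {W : WeilCohomology.{u, v} ops} {B Z Z0 Z1 P : 𝒱.Obj}

lemma lin_map (f : Z ⟶ B) (c : W.H (B.prod P)) :
    lin (W.map f).toLinearMap P c = W.map (times f P) c := by
  refine zw_ind (p := fun c => lin (W.map f).toLinearMap P c = W.map (times f P) c) ?_ ?_ ?_ c
  · intro a b ha hb
    rw [map_add, map_add, ha, hb]
  · rw [map_zero, map_zero]
  · intro z x
    have e1 : times f P ≫ fst B P = fst Z P ≫ f := Obj.lift_fst _ _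
    have e2 : times f P ≫ snd B P = snd Z P := Obj.lift_snd _ _
    rw [lin_zw, zw, zw, map_mul, ← W.map_comp, ← W.map_comp, e1, e2, W.map_comp]
    rfl

/-- The kernels of the maps on the cohomology of `B × P`. -/
lemma lin_ker (g0 : W.H B →ₗ[W.K] W.H Z0) (g1 : W.H B →ₗ[W.K] W.H Z1)
    (hker : ∀ x, g0 x = 0 → g1 x = 0) {c : W.H (B.prod P)} (hc : lin g0 P c = 0) :
    lin g1 P c = 0 := by
  classical
  obtain ⟨ι, hι, ⟨b⟩⟩ := Pool.Agent.Y163.exists_hbasis W P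
  cases nonempty_fintype ι
  obtain ⟨z, rfl⟩ := exists_dec b.b c
  rw [map_sum] at hc ⊢
  simp only [lin_zw] at hc ⊢
  have h1 : (fun a => g0 (z a)) = fun _ => 0 := by
    refine dec_unique b.b ?_
    rw [hc]
    exact (Finset.sum_eq_zero fun a _ => zw_zero _).symm
  refine Finset.sum_eq_zero fun a _ => ?_
  rw [hker _ (congrFun h1 a), zw_zero]

/-- Pull-backs commute with the projections to the homogeneous components. -/
lemma map_proj {Y Y' : 𝒱.Obj} (f : Y ⟶ Y') (i : ℕ) (c : W.H Y') :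
    W.map f (H914.proj (W.isInternal Y') i c) = H914.proj (W.isInternal Y) i (W.map f c) := by
  refine gr_induction (W.isInternal Y') (p := fun c => W.map f (H914.proj (W.isInternal Y') i c) =
    H914.proj (W.isInternal Y) i (W.map f c)) ?_ ?_ c
  · intro j c hc
    by_cases h : j = i
    · subst h
      rw [proj_same _ hc, proj_same _ (W.map_mem _ hc)]
    · rw [proj_ne _ hc h, proj_ne _ (W.map_mem _ hc) h, map_zero]
  · intro a b ha hb
    rw [map_add, map_add, ha, hb, map_add, map_add]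

lemma proj_algSpan {Y : 𝒱.Obj} {c : W.H Y} (hc : c ∈ algSpan W Y) (i : ℕ) :
    H914.proj (W.isInternal Y) i c ∈ algSpan W Y ∧
      ((¬ ∃ j, i = 2 * j) → H914.proj (W.isInternal Y) i c = 0) := by
  refine Pool.Agent.W536.RR.algSpan_induction (p := fun c =>
    H914.proj (W.isInternal Y) i c ∈ algSpan W Y ∧
      ((¬ ∃ j, i = 2 * j) → H914.proj (W.isInternal Y) i c = 0)) ?_ ?_ ?_ ?_ hc
  · rw [map_zero]
    exact ⟨Submodule.zero_mem _, fun _ => rfl⟩
  · rintro a b ⟨ha, ha'⟩ ⟨hb, hb'⟩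
    rw [map_add]
    exact ⟨Submodule.add_mem _ ha hb, fun h => by rw [ha' h, hb' h, add_zero]⟩
  · rintro t a ⟨ha, ha'⟩
    rw [map_smul]
    exact ⟨Submodule.smul_mem _ _ ha, fun h => by rw [ha' h, smul_zero]⟩
  · intro j z hz
    by_cases h : 2 * j = i
    · subst h
      rw [proj_same _ (W.cl_mem hz)]
      exact ⟨cl_mem_algSpan hz, fun h => absurd ⟨j, rfl⟩ h⟩
    · rw [proj_ne _ (W.cl_mem hz) h]
      exact ⟨Submodule.zero_mem _, fun _ => rfl⟩

end Conv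

variable {T : AHS.HodgeTheory ops}

lemma vhc_iff {B Z0 Z1 : 𝒱.Obj} (i0 : Z0 ⟶ B) (i1 : Z1 ⟶ B)
    (hker : ∀ x, T.W.map i0 x = 0 → T.W.map i1 x = 0) (P : 𝒱.Obj) :
    Vhc T i0 i1 P ↔ ∀ c, lin (T.W.map i0).toLinearMap P c ∈ algSpan T.W (Z0.prod P) →
      lin (T.W.map i1).toLinearMap P c ∈ algSpan T.W (Z1.prod P) := by
  constructor
  · intro h c hc
    rw [lin_map] at hc ⊢
    have hN : ∀ i, 2 * (B.prod P).dim + 1 ≤ i → T.W.gr (B.prod P) i = ⊥ := fun i hi =>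
      T.W.gr_eq_bot _ i (by omega)
    have h1 := congrArg (fun F : Module.End T.W.K (T.W.H (B.prod P)) => F c)
      (sum_proj (T.W.isInternal (B.prod P)) hN)
    beta_reduce at h1
    rw [LinearMap.sum_apply, Module.End.one_apply] at h1
    rw [← h1, map_sum]
    refine Submodule.sum_mem _ fun i _ => ?_
    by_cases hi : ∃ j, i = 2 * j
    · obtain ⟨j, rfl⟩ := hi
      have h2 : T.W.map (times i0 P) (H914.proj (T.W.isInternal (B.prod P)) (2 * j) c) ∈
          algSpan T.W (Z0.prod P) := by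
        rw [map_proj]
        exact (proj_algSpan hc _).1
      have h3 := H914.proj_mem (T.W.isInternal (B.prod P)) (2 * j) c
      obtain ⟨z, hz, hz'⟩ := h j _ h3
        (exists_cycle T.rat (spanCycles_of_algSpan h2 (T.W.map_mem _ h3)))
      rw [← hz']
      exact cl_mem_algSpan hz
    · have h2 : T.W.map (times i0 P) (H914.proj (T.W.isInternal (B.prod P)) i c) = 0 := by
        rw [map_proj]
        exact (proj_algSpan hc _).2 hi
      have h3 : T.W.map (times i1 P) (H914.proj (T.W.isInternal (B.prod P)) i c) = 0 := by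
        rw [← lin_map] at h2 ⊢
        exact lin_ker _ _ hker h2
      rw [h3]
      exact Submodule.zero_mem _
  · rintro h j c hc ⟨z, hz, hz'⟩
    have h1 := h c (by
      rw [lin_map, ← hz']
      exact cl_mem_algSpan hz)
    rw [lin_map] at h1
    exact exists_cycle T.rat (spanCycles_of_algSpan h1 (T.W.map_mem _ hc))

lemma alg_hodge (Y : 𝒱.Obj) : ∀ y ∈ (algCl (toH T).W).C Y,
    y ∈ Submodule.span (toH T).W.K {c | ∃ J, AH.IsHodge (toH T) Y J c} := by
  intro y hy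
  refine Pool.Agent.W536.RR.algSpan_induction
    (p := fun y => y ∈ Submodule.span (toH T).W.K {c | ∃ J, AH.IsHodge (toH T) Y J c})
    (Submodule.zero_mem _) (fun _ _ => Submodule.add_mem _) (fun _ _ => Submodule.smul_mem _ _)
    (fun j z hz => Submodule.subset_span ⟨j, (toH T).W.cl_mem hz, (toH T).dec.cyc hz⟩) hy

theorem exists_vh [Nonempty I] (hpos : NonnegTypes T) (hX : ∀ i, IsCM T (X i))
    {R : ℕ} (hR : HodgeGroupDimLe T X R)
    (h : ∀ i L, (∃ F : Finset I, F.card ≤ R + 1 ∧ ∀ j ∈ i :: L, j ∈ F) →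
      HodgeConj T (Hel2.prodOf X i L)) :
    ∃ (i0 : I) (L0 : List I),
      ∀ (B Z0 Z1 : 𝒱.Obj) (g0 : T.W.H B →ₗ[T.W.K] T.W.H Z0) (g1 : T.W.H B →ₗ[T.W.K] T.W.H Z1),
        (∀ x, g0 x = 0 → g1 x = 0) →
        (∀ c, lin g0 _ c ∈ algSpan T.W (Z0.prod (Arb.powerOf X i0 L0 Z0.dim)) →
          lin g1 _ c ∈ algSpan T.W (Z1.prod (Arb.powerOf X i0 L0 Z0.dim))) →
        ∀ i Lst c, lin g0 _ c ∈ algSpan T.W (Z0.prod (Hel2.prodOf X i Lst)) →
          lin g1 _ c ∈ algSpan T.W (Z1.prod (Hel2.prodOf X i Lst)) := by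
  have hall : ∀ i L, HG (T := toH T) (algCl (toH T).W) (Hel.prodOf X i L) := by
    intro i L
    rw [← prodOf_eq]
    exact (hg_iff _).2 (hodge_red hpos hX hR (m := ⊤) (Or.inl rfl) (fun i L hL => h i L hL.1) i L)
  choose f hf hgr hpq using hX
  obtain ⟨E, z, hE⟩ := hR
  obtain ⟨i0, L0, h1⟩ := exists_uniV (T := toH T) (X := X) hpos (f := f) hf hgr hpq
    (R := R) (E := E) (z := z) (fun i p q x hx => hE i p q x hx)
  refine ⟨i0, L0, fun B Z0 Z1 g0 g1 hker hV i Lst c hc => ?_⟩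
  revert c
  rw [prodOf_eq]
  rw [powerOf_eq] at hV
  intro c hc
  exact h1 _ hall alg_hodge B Z0 Z1 g0 g1 hker hV i Lst c hc

theorem vhc_main' [Nonempty I] (hpos : NonnegTypes T) (hX : ∀ i, IsCM T (X i))
    {R : ℕ} (hR : HodgeGroupDimLe T X R)
    (h : ∀ i L, (∃ F : Finset I, F.card ≤ R + 1 ∧ ∀ j ∈ i :: L, j ∈ F) →
      HodgeConj T (Hel2.prodOf X i L)) :
    ∃ (i0 : I) (L0 : List I), ∀ (B Z0 Z1 : 𝒱.Obj) (f0 : Z0 ⟶ B) (f1 : Z1 ⟶ B),
      (∀ x, T.W.map f0 x = 0 → T.W.map f1 x = 0) →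
        (Vhc T f0 f1 (Arb.powerOf X i0 L0 Z0.dim) ↔ ∀ i L, Vhc T f0 f1 (Hel2.prodOf X i L)) := by
  obtain ⟨i0, L0, h1⟩ := exists_vh hpos hX hR h
  refine ⟨i0, L0, fun B Z0 Z1 f0 f1 hker => ⟨fun hV i L => ?_, fun hV => hV _ _⟩⟩
  rw [vhc_iff f0 f1 hker] at hV ⊢
  exact fun c hc => h1 B Z0 Z1 _ _ hker hV i L c hc

lemma vhc_main'' [Nonempty I] (hpos : NonnegTypes T)
    (hX : ∀ i, IsCM T (X i)) {R : ℕ} (hR : HodgeGroupDimLe T X R) (F : I → List I → 𝒱.Obj)
    (hF : F = Hel2.prodOf X)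
    (h : ∀ i L, (∃ F : Finset I, F.card ≤ R + 1 ∧ ∀ j ∈ i :: L, j ∈ F) →
      Two.AllAlg (IsHodge T (F i L))) :
    ∃ (i0 : I) (L0 : List I), ∀ (B Z0 Z1 : 𝒱.Obj) (f0 : Z0 ⟶ B) (f1 : Z1 ⟶ B),
      (∀ x, T.W.map f0 x = 0 → T.W.map f1 x = 0) →
        (Vhc T f0 f1 (F i0 (L0 ++ (List.replicate (Z0.dim - 1) (i0 :: L0)).flatten)) ↔
          ∀ i L, Vhc T f0 f1 (F i L)) := by
  subst hF
  exact vhc_main' hpos hX hR h

/-- **The variational Hodge conjecture for products with varieties of CM type.** -/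
theorem vhc_main [Nonempty I] (hpos : NonnegTypes T) (hX : ∀ i, IsCM T (X i))
    {R : ℕ} (hR : Two.HgDimLe T X R)
    (h : ∀ i L, (∃ F : Finset I, F.card ≤ R + 1 ∧ ∀ j ∈ i :: L, j ∈ F) →
      Two.AllAlg (IsHodge T (Two.prodOf X i L))) :
    ∃ (i0 : I) (L0 : List I), ∀ (B Z0 Z1 : 𝒱.Obj) (f0 : Z0 ⟶ B) (f1 : Z1 ⟶ B),
      (∀ x, T.W.map f0 x = 0 → T.W.map f1 x = 0) →
        (Vhc T f0 f1 (Two.powerOf X i0 L0 Z0.dim) ↔ ∀ i L, Vhc T f0 f1 (Two.prodOf X i L)) :=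
  vhc_main'' hpos hX (show Hel2.HodgeGroupDimLe T X R from hR) (Two.prodOf X)
    (funext fun i => funext fun L => Two.prodOf_eq' X i L) h

end Pool.Agent.R936.Vh
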