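import Pool.Agent.R936.Vh.LevA

/-!
# Hodge classes in the image of a correspondence of bounded level
-/

set_option linter.unusedVariables false
set_option linter.unusedSectionVars false

open CategoryTheory AlgebraicGeometry TensorProduct

universe u v w

namespace Pool.Agent.R936.Vh

open Pool.Agent.H914 Pool.Agent.W534 VarClass Obj WeilCohomology Module
open Pool.Agent.Y121
open Pool.Agent.Y163 (HBasis exists_hbasis)
open Pool.Agent.H281R3.HT
open Pool.Agent.R940 (CMB csH csH_smul csH_map csH_em csH_gr csH_inj HSub em_HSub cs_baseChange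
  cs_ind cs_tmul type_bound deg_eq repr_zero em_SG mem_of_SG pq_top SG SG_ind)
open Pool.Agent.R936.Hel
open Pool.Agent.R936.Hel2 (BB CC pt wt st st_cons csH_lwf lwf_type wt_sum rel_iff st_eq pt_nonneg
  st_nonneg st_add WB exists_WB csH_tr type_of_tr clL HG st_dual algCl)
open Pool.Agent.R936.Per (Fix hodge_desc HC KC dual_letter')
open Pool.Agent.R936.Arb

variable {k : Type u} [Field k] {𝒱 : VarClass k} {ops : CycleOps 𝒱}

variable {T : AH.HodgeTheory ops} {B Y Z Z' Z0 Z1 P Q : 𝒱.Obj} {L : Type} [Field L]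
  [Algebra T.W.K L] {I : Type w} {X : I → 𝒱.Obj} {ι : I → Type}

section

variable (hpos : ∀ (Y : 𝒱.Obj) (p q : ℤ), p < 0 ∨ q < 0 → T.pq Y p q = ⊥)

variable (M : ∀ i, CMB T (X i) L (ι i))

include hpos in
/-- **The images of the Hodge classes under an operator of bounded level.** -/
theorem lev_arb [∀ i, Finite (ι i)] (hfix : Fix T L) (σ₀ : L →ₐ[T.W.K] ℂ) {G : Cl T.W}
    (hAlg : ∀ R : Multiset (Σ i, ι i), toZ R ∈ Hel.Rel (wt M) 0 → AlgS (clL G L) (BB M) R)
    {ℓ : ℕ} {i0 : I} {L' : List I}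
    (hb : ∀ R : Multiset (Σ i, ι i), (∀ σ, |lam (wt M) R σ| ≤ (ℓ : ℕ)) →
      ∃ b : List (Σ i, ι i), b.map Sigma.fst = i0 :: L' ∧ lamL (wt M) b = lam (wt M) R)
    (g : T.W.H Z →ₗ[T.W.K] T.W.H Z')
    (hlev : ∀ (p q : ℤ) (x : (baseW T.W ℂ).H Z), x ∈ T.pq Z p q → (ℓ : ℤ) < |p - q| →
      gL ℂ g x = 0)
    (hZ : ∀ (J : ℕ) (c : T.W.H (Z.prod (Hel.prodOf X i0 L'))), AH.IsHodge T _ J c →
      lin g _ c ∈ G.C (Z'.prod (Hel.prodOf X i0 L'))) (i : I) (Lst : List I) {J : ℕ}
    {c : T.W.H (Z.prod (Hel.prodOf X i Lst))} (hc : AH.IsHodge T _ J c) :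
    lin g _ c ∈ G.C (Z'.prod (Hel.prodOf X i Lst)) := by
  classical
  refine mem_of_SG (L := L) ?_
  obtain ⟨κ, hκ, N, hN⟩ := exists_WB (ops := ops) (X := X) (ι := ι) Lst i
  cases nonempty_fintype κ
  obtain ⟨b, hb'⟩ := hN _ (BB M)
  obtain ⟨z, hz⟩ := exists_dec (W := baseW T.W L) b (AH.em T.W L c)
  have hz' : AH.em T.W L c = ∑ a, zw (z a) (lwf (BB M) (N a)) := by
    rw [hz]
    exact Finset.sum_congr rfl fun a _ => by rw [hb']
  have hlin : AH.em T.W L (lin g _ c) = ∑ a, zw (gL L g (z a)) (lwf (BB M) (N a)) := by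
    rw [← gL_em, ← lin_em, hz', map_sum]
    exact Finset.sum_congr rfl fun a _ => lin_zw _ _ _
  rw [hlin]
  refine Submodule.sum_mem _ fun a _ => ?_
  by_cases hz0 : gL L g (z a) = 0
  · rw [hz0, zw_zero]
    exact Submodule.zero_mem _
  show zw (gL L g (z a)) (lwf (BB M) (N a)) ∈ (clL G L).C _
  have hza : z a ≠ 0 := fun h => hz0 (by rw [h, map_zero])
  have htype := fun σ => comp_types hpos M hN hc hz' a σ
  obtain ⟨b1, hb1, hb2⟩ := hb (↑((N a).map Sigma.fst)) (fun σ => by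
    by_contra hcon
    have h1 := hlev _ _ _ (htype σ) (by
      rw [lam_eq] at hcon
      push Not at hcon
      have e : (J : ℤ) - st M σ true (N a) - (J - st M σ false (N a)) =
        -(st M σ true (N a) - st M σ false (N a)) := by ring
      rw [e, abs_neg]
      exact hcon)
    rw [gL_csH] at h1
    exact hz0 (csH_inj σ (h1.trans (map_zero _).symm)))
  match b1, hb1, hb2 with
  | l :: b2, hb1, hb2 =>
    rw [List.map_cons] at hb1
    obtain ⟨h1, h2⟩ := List.cons.inj hb1
    subst h1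
    subst h2
    obtain ⟨C, hC1, hC2, _⟩ := isCan_prod' (BB M) b2 l
    have hwt : ∀ σ, st M σ true (N a) - st M σ false (N a) = st M σ true C - st M σ false C := by
      intro σ
      rw [← lam_eq, ← hb2, ← lam_eq, hC1, lamL_coe]
    obtain ⟨J', hJ'⟩ := comp_HSub hpos M σ₀ (Q := Hel.prodOf X l.1 (b2.map Sigma.fst)) hza htype hwt
    have hmem : zw (gL L g (z a)) (lwf (BB M) C) ∈
        (clL G L).C (Z'.prod (Hel.prodOf X l.1 (b2.map Sigma.fst))) := by
      rw [← lin_zw, lin_em]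
      have h1 := hodge_desc hfix σ₀ hJ'
      refine Submodule.span_induction (p := fun x _ =>
        gL L (lin g (Hel.prodOf X l.1 (b2.map Sigma.fst))) x ∈
        (clL G L).C (Z'.prod (Hel.prodOf X l.1 (b2.map Sigma.fst)))) ?_ ?_ ?_ ?_ h1
      · rintro _ ⟨c', hc', rfl⟩
        rw [gL_em]
        exact em_SG (hZ J' c' hc')
      · rw [map_zero]
        exact Submodule.zero_mem _
      · intro x y _ _ hx hy
        rw [map_add]
        exact Submodule.add_mem _ hx hy
      · intro t x _ hx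
        rw [map_smul]
        exact Submodule.smul_mem _ _ hx
    exact way_back hpos M hAlg hC2 hwt hmem

end

end Pool.Agent.R936.Vh
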