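import Pool.Agent.R936.Vh.Main

/-!
# Hodge classes in the image of a correspondence of bounded level
-/

set_option linter.unusedVariables false
set_option linter.unusedSectionVars false

open CategoryTheory AlgebraicGeometry TensorProduct

universe u v w

namespace Pool.Agent.R936.Vh

open Pool.Agent.H914 Pool.Agent.W534 VarClass Obj WeilCohomology Module
open Pool.Agent.Y121
open Pool.Agent.Y163 (HBasis exists_hbasis)
open Pool.Agent.H281R3.HT
open Pool.Agent.R940 (CMB csH csH_smul csH_map csH_em csH_gr csH_inj HSub em_HSub cs_baseChange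
  cs_ind cs_tmul type_bound deg_eq repr_zero em_SG mem_of_SG pq_top SG SG_ind)
open Pool.Agent.R936.Hel
open Pool.Agent.R936.Hel2 (BB CC pt wt st st_cons csH_lwf lwf_type wt_sum rel_iff st_eq pt_nonneg
  st_nonneg st_add WB exists_WB csH_tr type_of_tr clL HG st_dual algCl)
open Pool.Agent.R936.Per (Fix hodge_desc HC KC dual_letter')
open Pool.Agent.R936.Arb

variable {k : Type u} [Field k] {𝒱 : VarClass k} {ops : CycleOps 𝒱}

section

variable {W : WeilCohomology.{u, v} ops} {Z Z' P : 𝒱.Obj}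

/-- The action of a correspondence. -/
noncomputable def act (γ : W.H (Z'.prod Z)) : W.H Z →ₗ[W.K] W.H Z' where
  toFun z := W.push (snd Z Z') (W.map (Obj.lift (snd Z Z') (fst Z Z')) γ * W.map (fst Z Z') z)
  map_add' x y := by rw [map_add, mul_add, map_add]
  map_smul' c x := by rw [map_smul, mul_smul_comm, map_smul]; rfl

lemma act_apply (γ : W.H (Z'.prod Z)) (z : W.H Z) :
    act γ z = W.push (snd Z Z') (W.map (Obj.lift (snd Z Z') (fst Z Z')) γ * W.map (fst Z Z') z) :=
  rfl

lemma act_add (γ γ' : W.H (Z'.prod Z)) (z : W.H Z) : act (γ + γ') z = act γ z + act γ' z := by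
  rw [act_apply, map_add, add_mul, map_add]; rfl

lemma act_zero (z : W.H Z) : act (0 : W.H (Z'.prod Z)) z = 0 := by
  rw [act_apply, map_zero, zero_mul, map_zero]

lemma act_zw {i j l : ℕ} {y : W.H Z'} {b z : W.H Z} (hy : y ∈ W.gr Z' i) (hb : b ∈ W.gr Z j)
    (hz : z ∈ W.gr Z l) : act (zw y b) z = W.tr Z (b * z) • y := by
  have e1 : Obj.lift (snd Z Z') (fst Z Z') ≫ fst Z' Z = snd Z Z' := Obj.lift_fst _ _
  have e2 : Obj.lift (snd Z Z') (fst Z Z') ≫ snd Z' Z = fst Z Z' := Obj.lift_snd _ _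
  have hbz : b * z ∈ W.gr Z (j + l) := W.mul_mem hb hz
  have h1 : W.map (Obj.lift (snd Z Z') (fst Z Z')) (zw y b) * W.map (fst Z Z') z =
      W.map (snd Z Z') y * W.map (fst Z Z') (b * z) := by
    rw [zw, map_mul (W.map (Obj.lift (snd Z Z') (fst Z Z'))), ← W.map_comp, ← W.map_comp, e1, e2,
      mul_assoc, ← map_mul]
  rw [act_apply, h1, W.comm (W.map_mem _ hy) (W.map_mem _ hbz), map_smul, W.push_snd]
  by_cases h0 : j + l = 2 * Z.dim
  · rw [h0, show i * (2 * Z.dim) = 2 * (i * Z.dim) by ring, pow_mul]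
    simp
  · rw [W.tr_eq_zero hbz h0, zero_smul, smul_zero]

/-- The action on the first factor. -/
lemma contr_act (γ : W.H (Z'.prod Z)) (z : W.H Z) (x : W.H P) :
    contr γ (zw z x) = zw (act γ z) x := by
  classical
  refine gr_induction (W.isInternal Z) (p := fun z => contr γ (zw z x) = zw (act γ z) x) ?_ ?_ z
  · intro l z hz
    refine W.kunneth_induction (p := fun γ => contr γ (zw z x) = zw (act γ z) x) ?_ ?_ γ
    · intro a b ha hb
      rw [contr_add, ha, hb, act_add, zw_add]
    · intro i j y hy b hb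
      have h1 : W.map (fst Z' Z) y * W.map (snd Z' Z) b = zw y b := rfl
      rw [h1, contr_zw hb hz, act_zw hy hb hz, zw_smul]
  · intro a b ha hb
    rw [zw_add, Nc.contr_add_right, ha, hb, map_add, zw_add]

/-- The composition with a correspondence. -/
lemma contr_lin (γ : W.H (Z'.prod Z)) (c : W.H (Z.prod P)) : contr γ c = lin (act γ) P c := by
  refine zw_ind (p := fun c => contr γ c = lin (act γ) P c) ?_ ?_ ?_ c
  · intro a b ha hb
    rw [Nc.contr_add_right, ha, hb, map_add]
  · rw [Nc.contr_zero_right, map_zero]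
  · intro z x
    rw [contr_act, lin_zw]

end

variable {T : AH.HodgeTheory ops} {B Y Z Z' Z0 Z1 P Q : 𝒱.Obj} {L : Type} [Field L]
  [Algebra T.W.K L] {I : Type w} {X : I → 𝒱.Obj} {ι : I → Type}

lemma gL_csH (g : T.W.H Z →ₗ[T.W.K] T.W.H Z') (σ : L →ₐ[T.W.K] ℂ) (x : (baseW T.W L).H Z) :
    gL ℂ g (csH σ Z x) = csH σ Z' (gL L g x) := by
  refine gL_ind (p := fun x => gL ℂ g (csH σ Z x) = csH σ Z' (gL L g x)) ?_ ?_ ?_ ?_ x
  · intro a b ha hb
    rw [map_add, map_add, map_add, map_add, ha, hb]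
  · rw [map_zero, map_zero, map_zero, map_zero]
  · intro t x hx
    rw [csH_smul, map_smul, map_smul, csH_smul, hx]
  · intro c
    rw [csH_em, gL_em, gL_em, csH_em]

/-- The action with extended coefficients. -/
lemma act_gL (γ : T.W.H (Z'.prod Z)) (x : (baseW T.W L).H Z) :
    (baseW T.W L).push (snd Z Z') ((baseW T.W L).map (Obj.lift (snd Z Z') (fst Z Z'))
      (AH.em T.W L γ) * (baseW T.W L).map (fst Z Z') x) = gL L (act γ) x := by
  refine gL_ind (p := fun x => (baseW T.W L).push (snd Z Z')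
    ((baseW T.W L).map (Obj.lift (snd Z Z') (fst Z Z')) (AH.em T.W L γ) *
      (baseW T.W L).map (fst Z Z') x) = gL L (act γ) x) ?_ ?_ ?_ ?_ x
  · intro a b ha hb
    rw [map_add, mul_add, map_add, map_add, ha, hb]
  · rw [map_zero, mul_zero, map_zero, map_zero]
  · intro t x hx
    rw [map_smul, mul_smul_comm, map_smul, map_smul, hx]
  · intro c
    rw [gL_em, AH.em_map, AH.em_map, ← AH.em_mul, AH.em_push]
    rfl

end Pool.Agent.R936.Vh
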