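import Pool.Agent.R936.Vh.Lin

/-!
# The variational Hodge conjecture for products with varieties of CM type
-/

set_option linter.unusedVariables false
set_option linter.unusedSectionVars false

open CategoryTheory AlgebraicGeometry TensorProduct

universe u v w

namespace Pool.Agent.R936.Vh

open Pool.Agent.H914 Pool.Agent.W534 VarClass Obj WeilCohomology Module
open Pool.Agent.Y121
open Pool.Agent.Y163 (HBasis)
open Pool.Agent.H281R3.HT
open Pool.Agent.R940 (CMB csH csH_smul csH_map csH_em csH_gr csH_inj HSub em_HSub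
  cs_ind cs_tmul type_bound deg_eq repr_zero em_SG mem_of_SG pq_top SG SG_ind)
open Pool.Agent.R936.Hel
open Pool.Agent.R936.Hel2 (BB CC pt wt st st_cons csH_lwf lwf_type wt_sum rel_iff st_eq pt_nonneg
  st_nonneg st_add WB exists_WB csH_tr type_of_tr clL HG st_dual algCl)
open Pool.Agent.R936.Per (Fix hodge_desc HC KC dual_letter')
open Pool.Agent.R936.Arb

variable {k : Type u} [Field k] {𝒱 : VarClass k} {ops : CycleOps 𝒱}
variable {T : AH.HodgeTheory ops} {B Y Z Z0 Z1 P Q : 𝒱.Obj} {L : Type} [Field L] [Algebra T.W.K L]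
  {I : Type w} {X : I → 𝒱.Obj} {ι : I → Type}

section

variable (hpos : ∀ (Y : 𝒱.Obj) (p q : ℤ), p < 0 ∨ q < 0 → T.pq Y p q = ⊥)

variable (M : ∀ i, CMB T (X i) L (ι i))

/-- The words of weight zero on a product of two products. -/
lemma word_mem {G : Cl T.W}
    (hAlg : ∀ R : Multiset (Σ i, ι i), toZ R ∈ Hel.Rel (wt M) 0 → AlgS (clL G L) (BB M) R)
    {i : I} {Lst : List I} {i' : I} {Lst' : List I} (N : List (Lt X ι (Hel.prodOf X i Lst)))
    (N' : List (Lt X ι (Hel.prodOf X i' Lst')))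
    (h : ∀ σ, st M σ true N + st M σ true N' = st M σ false N + st M σ false N') :
    zw (lwf (BB M) N) (lwf (BB M) N') ∈
      (clL G L).C ((Hel.prodOf X i Lst).prod (Hel.prodOf X i' Lst')) := by
  rw [zw_lwf]
  refine hAlg _ ?_ _ _ rfl
  rw [rel_iff]
  intro σ
  rw [st_eq, st_eq, st, st, List.map_append, List.map_append, List.sum_append, List.sum_append]
  have e1 : ∀ b, ((pull (fst (Hel.prodOf X i Lst) (Hel.prodOf X i' Lst'))
      N).map fun y => pt M σ b y.1).sum = st M σ b N := by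
    intro b
    rw [pull, List.map_map]
    rfl
  have e2 : ∀ b, ((pull (snd (Hel.prodOf X i Lst) (Hel.prodOf X i' Lst'))
      N').map fun y => pt M σ b y.1).sum = st M σ b N' := by
    intro b
    rw [pull, List.map_map]
    rfl
  rw [e1, e1, e2, e2]
  exact h σ

include hpos in
/-- The components of a class in the system can be moved to other factors. -/
theorem extract [∀ i, Finite (ι i)] (σ₀ : L →ₐ[T.W.K] ℂ) {G : Cl T.W}
    (hAlg : ∀ R : Multiset (Σ i, ι i), toZ R ∈ Hel.Rel (wt M) 0 → AlgS (clL G L) (BB M) R)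
    {i : I} {Lst : List I} {κ : Type} [Fintype κ] {N : κ → List (Lt X ι (Hel.prodOf X i Lst))}
    (b : Basis κ (baseW T.W L).K ((baseW T.W L).H (Hel.prodOf X i Lst)))
    (hb' : ∀ a, b a = lwf (BB M) (N a)) {u : κ → (baseW T.W L).H Z}
    (hx : ∑ a, zw (u a) (lwf (BB M) (N a)) ∈ (clL G L).C (Z.prod (Hel.prodOf X i Lst)))
    {i' : I} {Lst' : List I} {C : List (Lt X ι (Hel.prodOf X i' Lst'))} (a : κ)
    (hwt : ∀ σ, st M σ true (N a) - st M σ false (N a) = st M σ true C - st M σ false C) :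
    zw (u a) (lwf (BB M) C) ∈ (clL G L).C (Z.prod (Hel.prodOf X i' Lst')) := by
  classical
  obtain ⟨g, hg⟩ := Pool.Agent.R936.Arb.exists_dual (W := baseW T.W L) b
  -- complementary words
  let Co : κ → κ → Prop := fun m a' => ∀ σ e, st M σ e (N m) + st M σ e (N a') =
    (Hel.prodOf X i Lst).dim
  have hCo : ∀ m a', (baseW T.W L).tr _ (b a' * b m) ≠ 0 → Co m a' := by
    intro m a' h σ e
    rw [hb', hb'] at h
    rw [add_comm]
    exact st_dual M hpos h σ e
  let v : (baseW T.W L).H (Hel.prodOf X i Lst) :=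
    ∑ m ∈ Finset.univ.filter (fun m => Co m a), g m a • b m
  -- the degree of `v`
  have hdeg : ∀ m, Co m a → ((N m).map fun y => dg (BB M) y.1).sum =
      2 * (Hel.prodOf X i Lst).dim - ((N a).map fun y => dg (BB M) y.1).sum := by
    intro m hm
    have h1 := hm σ₀ true
    have h2 := hm σ₀ false
    have h3 := st_add M hpos σ₀ (N m)
    have h4 := st_add M hpos σ₀ (N a)
    have h5 : ((N m).map fun y => dg (BB M) y.1).sum =
      ((N m).map fun y => (M y.1.1).B.deg y.1.2).sum := rfl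
    have h6 : ((N a).map fun y => dg (BB M) y.1).sum =
      ((N a).map fun y => (M y.1.1).B.deg y.1.2).sum := rfl
    rw [h5, h6]
    omega
  have hv : v ∈ (baseW T.W L).gr _
      (2 * (Hel.prodOf X i Lst).dim - ((N a).map fun y => dg (BB M) y.1).sum) := by
    refine Submodule.sum_mem _ fun m hm => Submodule.smul_mem _ _ ?_
    rw [← hdeg m (Finset.mem_filter.1 hm).2, hb']
    exact lwf_gr _
  have htr : ∀ a', (baseW T.W L).tr _ (b a' * v) = if a' = a then 1 else 0 := by
    intro a'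
    by_cases hsame : ∀ σ e, st M σ e (N a') = st M σ e (N a)
    · rw [← hg a a']
      show (baseW T.W L).tr _ (b a' *
        ∑ m ∈ Finset.univ.filter (fun m => Co m a), g m a • b m) = _
      rw [Finset.mul_sum, map_sum, Finset.mul_sum, map_sum, Finset.sum_filter]
      refine Finset.sum_congr rfl fun m _ => ?_
      split_ifs with h
      · rfl
      · rw [mul_smul_comm, map_smul]
        by_cases h0 : (baseW T.W L).tr _ (b a' * b m) = 0
        · rw [h0, smul_zero]
        · exfalso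
          apply h
          intro σ e
          rw [← hsame σ e]
          exact hCo m a' h0 σ e
    · have hne : a' ≠ a := by
        rintro rfl
        exact hsame fun _ _ => rfl
      rw [if_neg hne]
      show (baseW T.W L).tr _ (b a' *
        ∑ m ∈ Finset.univ.filter (fun m => Co m a), g m a • b m) = _
      rw [Finset.mul_sum, map_sum]
      refine Finset.sum_eq_zero fun m hm => ?_
      rw [mul_smul_comm, map_smul]
      by_cases h0 : (baseW T.W L).tr _ (b a' * b m) = 0
      · rw [h0, smul_zero]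
      · exfalso
        apply hsame
        intro σ e
        have h1 := hCo m a' h0 σ e
        have h2 := (Finset.mem_filter.1 hm).2 σ e
        omega
  have hword : zw v (lwf (BB M) C) ∈ (clL G L).C _ := by
    show zw (∑ m ∈ Finset.univ.filter (fun m => Co m a), g m a • b m) (lwf (BB M) C) ∈ _
    rw [zw_sum]
    refine Submodule.sum_mem _ fun m hm => ?_
    rw [zw_smul, hb']
    refine Submodule.smul_mem _ _ (word_mem M hAlg _ _ fun σ => ?_)
    have h1 := (Finset.mem_filter.1 hm).2 σ true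
    have h2 := (Finset.mem_filter.1 hm).2 σ false
    have h3 := hwt σ
    omega
  have h5 := contr_mem (clL G L) hx hword
  rw [contr_sum] at h5
  have h6 : ∑ a', contr (zw (u a') (lwf (BB M) (N a'))) (zw v (lwf (BB M) C)) =
      zw (u a) (lwf (BB M) C) := by
    rw [Finset.sum_eq_single a]
    · rw [contr_zw (lwf_gr _) hv, ← hb', htr, if_pos rfl, one_smul]
    · intro a' _ hne
      rw [contr_zw (lwf_gr _) hv, ← hb', htr, if_neg hne, zero_smul]
    · intro h
      exact absurd (Finset.mem_univ _) h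
  rw [h6] at h5
  exact h5

include hpos in
/-- The way back. -/
theorem way_back [∀ i, Finite (ι i)] {G : Cl T.W}
    (hAlg : ∀ R : Multiset (Σ i, ι i), toZ R ∈ Hel.Rel (wt M) 0 → AlgS (clL G L) (BB M) R)
    {i : I} {Lst : List I} {N : List (Lt X ι (Hel.prodOf X i Lst))}
    {i' : I} {Lst' : List I} {C : List (Lt X ι (Hel.prodOf X i' Lst'))}
    (hC : lwf (BB M) C ≠ 0) {x : (baseW T.W L).H Z}
    (hwt : ∀ σ, st M σ true N - st M σ false N = st M σ true C - st M σ false C)
    (h : zw x (lwf (BB M) C) ∈ (clL G L).C (Z.prod (Hel.prodOf X i' Lst'))) :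
    zw x (lwf (BB M) N) ∈ (clL G L).C (Z.prod (Hel.prodOf X i Lst)) := by
  classical
  obtain ⟨κ', hκ', N', hN'⟩ := exists_WB (ops := ops) (X := X) (ι := ι) Lst' i'
  obtain ⟨b', hb''⟩ := hN' _ (BB M)
  obtain ⟨m, hm⟩ := exists_dualv b' hC
  rw [hb''] at hm
  have hdual := fun σ b => st_dual M hpos hm σ b
  have hword' : zw (lwf (BB M) (N' m)) (lwf (BB M) N) ∈ (clL G L).C _ := by
    refine word_mem M hAlg _ _ fun σ => ?_
    have h1 := hdual σ true
    have h2 := hdual σ false
    have h3 := hwt σ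
    omega
  have h7 := contr_mem (clL G L) h hword'
  rw [contr_zw (lwf_gr _) (lwf_gr _)] at h7
  have h8 := Submodule.smul_mem _ ((baseW T.W L).tr _ (lwf (BB M) C * lwf (BB M) (N' m)))⁻¹ h7
  rwa [smul_smul, inv_mul_cancel₀ hm, one_smul] at h8

include hpos in
/-- The weights of the components of a combination of Hodge classes. -/
lemma bound {κ : Type} [Fintype κ] {N : κ → List (Lt X ι P)} (hN : WB ops X ι P κ N)
    {G : Submodule T.W.K (T.W.H (Z.prod P))}
    (hG : ∀ y ∈ G, y ∈ Submodule.span T.W.K {c | ∃ J, AH.IsHodge T (Z.prod P) J c})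
    {y : T.W.H (Z.prod P)} (hy : y ∈ G) :
    ∃ u : κ → (baseW T.W L).H Z, AH.em T.W L y = ∑ a, zw (u a) (lwf (BB M) (N a)) ∧
      ∀ a, u a ≠ 0 → ∀ σ : L →ₐ[T.W.K] ℂ,
        |lam (wt M) (↑((N a).map Sigma.fst) : Multiset (Σ i, ι i)) σ| ≤ (Z.dim : ℕ) := by
  classical
  refine Submodule.span_induction (p := fun y _ => ∃ u : κ → (baseW T.W L).H Z,
    AH.em T.W L y = ∑ a, zw (u a) (lwf (BB M) (N a)) ∧ ∀ a, u a ≠ 0 → ∀ σ : L →ₐ[T.W.K] ℂ,
      |lam (wt M) (↑((N a).map Sigma.fst) : Multiset (Σ i, ι i)) σ| ≤ (Z.dim : ℕ))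
    ?_ ?_ ?_ ?_ (hG y hy)
  · rintro c ⟨J, hc⟩
    obtain ⟨b, hb'⟩ := hN _ (BB M)
    obtain ⟨z, hz⟩ := exists_dec (W := baseW T.W L) b (AH.em T.W L c)
    have hz' : AH.em T.W L c = ∑ a, zw (z a) (lwf (BB M) (N a)) := by
      rw [hz]
      exact Finset.sum_congr rfl fun a _ => by rw [hb']
    refine ⟨z, hz', fun a ha σ => ?_⟩
    have h0 : csH σ Z (z a) ≠ 0 := fun h => ha (csH_inj σ (h.trans (map_zero _).symm))
    obtain ⟨h1, h2, h3, h4⟩ := type_le_dim hpos (comp_types hpos M hN hc hz' a σ) h0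
    rw [lam_eq, abs_le]
    constructor <;> omega
  · exact ⟨fun _ => 0, by simp [zw_zero, AH.em_zero], fun a ha => absurd rfl ha⟩
  · rintro x y _ _ ⟨u, hu, hu'⟩ ⟨v, hv, hv'⟩
    refine ⟨fun a => u a + v a, ?_, fun a ha σ => ?_⟩
    · rw [AH.em_add, hu, hv, ← Finset.sum_add_distrib]
      exact Finset.sum_congr rfl fun a _ => (zw_add _ _ _).symm
    · by_cases h : u a = 0
      · refine hv' a (fun h' => ha ?_) σ
        show u a + v a = 0
        rw [h, h', add_zero]
      · exact hu' a h σ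
  · rintro t x _ ⟨u, hu, hu'⟩
    refine ⟨fun a => (show (baseW T.W L).K from algebraMap T.W.K L t) • u a, ?_,
      fun a ha σ => hu' a (fun h => ha ?_) σ⟩
    · have h1 : AH.em T.W L (t • x) = (show (baseW T.W L).K from algebraMap T.W.K L t) •
          AH.em T.W L x := by
        show (1 : L) ⊗ₜ[T.W.K] (t • x) = (algebraMap T.W.K L t) • ((1 : L) ⊗ₜ[T.W.K] x)
        rw [TensorProduct.tmul_smul, algebraMap_smul]
      rw [h1, hu, Finset.smul_sum]
      exact Finset.sum_congr rfl fun a _ => (zw_smul _ _ _).symm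
    · show (show (baseW T.W L).K from algebraMap T.W.K L t) • u a = 0
      rw [h, smul_zero]

include hpos in
/-- **The variational principle for products with varieties of CM type.** -/
theorem vh_arb [∀ i, Finite (ι i)] (σ₀ : L →ₐ[T.W.K] ℂ) {G : Cl T.W}
    (hAlg : ∀ R : Multiset (Σ i, ι i), toZ R ∈ Hel.Rel (wt M) 0 → AlgS (clL G L) (BB M) R)
    (hG : ∀ Y, ∀ y ∈ G.C Y, y ∈ Submodule.span T.W.K {c | ∃ J, AH.IsHodge T Y J c})
    {i0 : I} {L' : List I} (g0 : T.W.H B →ₗ[T.W.K] T.W.H Z0) (g1 : T.W.H B →ₗ[T.W.K] T.W.H Z1)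
    (hb : ∀ R : Multiset (Σ i, ι i), (∀ σ, |lam (wt M) R σ| ≤ (Z0.dim : ℕ)) →
      ∃ b : List (Σ i, ι i), b.map Sigma.fst = i0 :: L' ∧ lamL (wt M) b = lam (wt M) R)
    (hker : ∀ x, g0 x = 0 → g1 x = 0)
    (hV : ∀ c : T.W.H (B.prod (Hel.prodOf X i0 L')),
      lin g0 _ c ∈ G.C (Z0.prod (Hel.prodOf X i0 L')) →
      lin g1 _ c ∈ G.C (Z1.prod (Hel.prodOf X i0 L')))
    (i : I) (Lst : List I) {c : T.W.H (B.prod (Hel.prodOf X i Lst))}
    (hc : lin g0 _ c ∈ G.C (Z0.prod (Hel.prodOf X i Lst))) :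
    lin g1 _ c ∈ G.C (Z1.prod (Hel.prodOf X i Lst)) := by
  classical
  obtain ⟨κ, hκ, N, hN⟩ := exists_WB (ops := ops) (X := X) (ι := ι) Lst i
  cases nonempty_fintype κ
  obtain ⟨b, hb'⟩ := hN _ (BB M)
  obtain ⟨z, hz⟩ := exists_dec (W := baseW T.W L) b (AH.em T.W L c)
  have hz' : AH.em T.W L c = ∑ a, zw (z a) (lwf (BB M) (N a)) := by
    rw [hz]
    exact Finset.sum_congr rfl fun a _ => by rw [hb']
  have hlin : ∀ {Z : 𝒱.Obj} (g : T.W.H B →ₗ[T.W.K] T.W.H Z), AH.em T.W L (lin g _ c) =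
      ∑ a, zw (gL L g (z a)) (lwf (BB M) (N a)) := by
    intro Z g
    rw [← gL_em, ← lin_em, hz', map_sum]
    exact Finset.sum_congr rfl fun a _ => lin_zw _ _ _
  obtain ⟨u, hu, hu'⟩ := bound hpos M hN (G := G.C _) (hG _) hc
  have huz : u = fun a => gL L g0 (z a) := by
    refine dec_unique b ?_
    have h1 := (hlin g0).symm.trans hu
    simp only [hb']
    exact h1.symm
  subst huz
  have hx : ∑ a, zw (gL L g0 (z a)) (lwf (BB M) (N a)) ∈
      (clL G L).C (Z0.prod (Hel.prodOf X i Lst)) := by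
    rw [← hu]
    exact em_SG hc
  refine mem_of_SG (L := L) ?_
  rw [hlin g1]
  refine Submodule.sum_mem _ fun a _ => ?_
  by_cases hz0 : gL L g0 (z a) = 0
  · have h1 : z a ∈ SG L ((⊥ : Submodule T.W.K (T.W.H Z0)).comap g0) := by
      refine mem_comap_SG g0 ⊥ ?_
      rw [hz0]
      exact Submodule.zero_mem _
    have h2 : gL L g1 (z a) = 0 := by
      refine SG_ind (P := fun x => gL L g1 x = 0) (map_zero _) ?_ ?_ ?_ h1
      · intro x y hx hy
        rw [map_add, hx, hy, add_zero]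
      · intro t x hx
        rw [map_smul, hx, smul_zero]
      · intro x hx
        rw [gL_em, hker x hx, AH.em_zero]
    rw [h2, zw_zero]
    exact Submodule.zero_mem _
  · show zw (gL L g1 (z a)) (lwf (BB M) (N a)) ∈ (clL G L).C _
    obtain ⟨b1, hb1, hb2⟩ := hb (↑((N a).map Sigma.fst)) (hu' a hz0)
    match b1, hb1, hb2 with
    | l :: b2, hb1, hb2 =>
      rw [List.map_cons] at hb1
      obtain ⟨h1, h2⟩ := List.cons.inj hb1
      subst h1
      subst h2
      obtain ⟨C, hC1, hC2, _⟩ := isCan_prod' (BB M) b2 l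
      have hwt : ∀ σ, st M σ true (N a) - st M σ false (N a) =
          st M σ true C - st M σ false C := by
        intro σ
        rw [← lam_eq, ← hb2, ← lam_eq, hC1, lamL_coe]
      have h5 := extract hpos M σ₀ hAlg b hb' hx (C := C) a hwt
      -- the variation
      have h6 : gL L (lin g0 (Hel.prodOf X l.1 (b2.map Sigma.fst))) (zw (z a) (lwf (BB M) C)) ∈
          SG L (G.C (Z0.prod (Hel.prodOf X l.1 (b2.map Sigma.fst)))) := by
        rw [← lin_em, lin_zw]
        exact h5
      have h7 := mem_comap_SG _ _ h6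
      have h8 : zw (gL L g1 (z a)) (lwf (BB M) C) ∈
          (clL G L).C (Z1.prod (Hel.prodOf X l.1 (b2.map Sigma.fst))) := by
        rw [← lin_zw, lin_em]
        refine SG_ind (P := fun x => gL L (lin g1 (Hel.prodOf X l.1 (b2.map Sigma.fst))) x ∈
          SG L (G.C (Z1.prod (Hel.prodOf X l.1 (b2.map Sigma.fst))))) ?_ ?_ ?_ ?_ h7
        · rw [map_zero]
          exact Submodule.zero_mem _
        · intro x y hx hy
          rw [map_add]
          exact Submodule.add_mem _ hx hy
        · intro t x hx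
          rw [map_smul]
          exact Submodule.smul_mem _ _ hx
        · intro x hx
          rw [gL_em]
          exact em_SG (hV x hx)
      exact way_back hpos M hAlg hC2 hwt h8

end

end Pool.Agent.R936.Vh
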