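import Pool.Agent.R936.Vh.LevA
import Pool.Agent.R936.Arb.Num
import Pool.Agent.Y121.AH.Fix

/-!
# Numerically trivial classes in the image of a correspondence
-/

set_option linter.unusedVariables false
set_option linter.unusedSectionVars false

open CategoryTheory AlgebraicGeometry TensorProduct

universe u v w

namespace Pool.Agent.R936.Vh

open Pool.Agent.H914 Pool.Agent.W534 VarClass Obj WeilCohomology Module
open Pool.Agent.Y121
open Pool.Agent.Y163 (HBasis)
open Pool.Agent.H281R3.HT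
open Pool.Agent.W536.RR (algSpan_map algSpan_mul one_mem_algSpan cl_mem_algSpan algSpan_push
  numZ numZ_mul numZ_map numZ_push mem_transc algSpan_induction)
open Pool.Agent.R940 (CMB csH csH_smul csH_map csH_em csH_gr csH_inj HSub em_HSub
  cs_ind cs_tmul type_bound deg_eq repr_zero em_SG mem_of_SG pq_top SG SG_ind)
open Pool.Agent.R936.Hel
open Pool.Agent.R936.Hel2 (BB CC pt wt st st_cons csH_lwf lwf_type wt_sum rel_iff st_eq pt_nonneg
  st_nonneg st_add WB exists_WB csH_tr type_of_tr clL HG st_dual algCl)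
open Pool.Agent.R936.Per (Fix hodge_desc HC KC dual_letter')
open Pool.Agent.R936.Arb

variable {k : Type u} [Field k] {𝒱 : VarClass k} {ops : CycleOps 𝒱}
variable {T : AH.HodgeTheory ops} {B Y Y' Z Z' P Q : 𝒱.Obj} {L : Type} [Field L] [Algebra T.W.K L]
  {I : Type w} {X : I → 𝒱.Obj} {ι : I → Type}

/-- The coefficients of a class with extended coefficients. -/
lemma exists_coeffs (V : Submodule T.W.K (T.W.H Y)) {x : (baseW T.W L).H Y} (hx : x ∈ SG L V) :
    ∃ (κ : Type) (l : κ → L) (s : Finset κ) (v : κ → T.W.H Y), LinearIndependent T.W.K l ∧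
      (∀ i, v i ∈ V) ∧ x = ∑ i ∈ s, (show (baseW T.W L).K from l i) • AH.em T.W L (v i) := by
  classical
  obtain ⟨x', hx'⟩ : ∃ x' : L ⊗[T.W.K] V, V.subtype.baseChange L x' = x := hx
  let ℬ := Basis.ofVectorSpace T.W.K L
  obtain ⟨c, hc⟩ := TensorProduct.eq_repr_basis_left ℬ x'
  refine ⟨_, ℬ, c.support, fun i => c i, ℬ.linearIndependent, fun i => (c i).2, ?_⟩
  rw [← hx', ← hc, Finsupp.sum, map_sum]
  refine Finset.sum_congr rfl fun i _ => ?_
  rw [LinearMap.baseChange_tmul]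
  show (ℬ i) ⊗ₜ[T.W.K] ((c i : V) : T.W.H Y) = (ℬ i) • ((1 : L) ⊗ₜ[T.W.K] ((c i : V) : T.W.H Y))
  rw [TensorProduct.smul_tmul', smul_eq_mul, mul_one]

/-- The left kernel of a pairing does not change under extension of the coefficients. -/
lemma kernel_ext (g : T.W.H Y →ₗ[T.W.K] T.W.H Y')
    (h : ∀ c ∈ algSpan T.W Y, (∀ d ∈ algSpan T.W Y', T.W.tr Y' (g c * d) = 0) → g c = 0)
    {x : (baseW T.W L).H Y} (hx : x ∈ SG L (algSpan T.W Y))
    (hn : ∀ d ∈ algSpan T.W Y', (baseW T.W L).tr Y' (gL L g x * AH.em T.W L d) = 0) :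
    gL L g x = 0 := by
  classical
  obtain ⟨κ, l, s, v, hl, hv, rfl⟩ := exists_coeffs _ hx
  have h1 : gL L g (∑ i ∈ s, (show (baseW T.W L).K from l i) • AH.em T.W L (v i)) =
      ∑ i ∈ s, (show (baseW T.W L).K from l i) • AH.em T.W L (g (v i)) := by
    rw [map_sum]
    exact Finset.sum_congr rfl fun i _ => by rw [map_smul, gL_em]
  rw [h1] at hn ⊢
  refine Finset.sum_eq_zero fun i hi => ?_
  rw [h (v i) (hv i) ?_, AH.em_zero, smul_zero]
  intro d hd
  have h2 := hn d hd
  rw [Finset.sum_mul, map_sum] at h2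
  have h3 : ∑ i ∈ s, T.W.tr Y' (g (v i) * d) • l i = 0 := by
    refine Eq.trans ?_ h2
    refine Finset.sum_congr rfl fun i _ => ?_
    rw [smul_mul_assoc, map_smul, ← AH.em_mul, AH.em_tr]
    show T.W.tr Y' (g (v i) * d) • l i = l i * algebraMap T.W.K L (T.W.tr Y' (g (v i) * d))
    rw [Algebra.smul_def, mul_comm]
  exact linearIndependent_iff'.1 hl s (fun i => T.W.tr Y' (g (v i) * d)) h3 i hi

section

variable (hpos : ∀ (Y : 𝒱.Obj) (p q : ℤ), p < 0 ∨ q < 0 → T.pq Y p q = ⊥)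

variable (M : ∀ i, CMB T (X i) L (ι i))

include hpos in
/-- The components of a class are given by contractions. -/
theorem exists_word [∀ i, Finite (ι i)] (σ₀ : L →ₐ[T.W.K] ℂ) {G : Cl T.W}
    (hAlg : ∀ R : Multiset (Σ i, ι i), toZ R ∈ Hel.Rel (wt M) 0 → AlgS (clL G L) (BB M) R)
    {i : I} {Lst : List I} {κ : Type} [Fintype κ] {N : κ → List (Lt X ι (Hel.prodOf X i Lst))}
    (b : Basis κ (baseW T.W L).K ((baseW T.W L).H (Hel.prodOf X i Lst)))
    (hb' : ∀ a, b a = lwf (BB M) (N a))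
    {i' : I} {Lst' : List I} {C : List (Lt X ι (Hel.prodOf X i' Lst'))} (a : κ)
    (hwt : ∀ σ, st M σ true (N a) - st M σ false (N a) = st M σ true C - st M σ false C) :
    ∃ y ∈ (clL G L).C ((Hel.prodOf X i Lst).prod (Hel.prodOf X i' Lst')),
      ∀ (Z : 𝒱.Obj) (u : κ → (baseW T.W L).H Z),
        contr (∑ a', zw (u a') (lwf (BB M) (N a'))) y = zw (u a) (lwf (BB M) C) := by
  classical
  obtain ⟨g, hg⟩ := Pool.Agent.R936.Arb.exists_dual (W := baseW T.W L) b
  -- complementary words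
  let Co : κ → κ → Prop := fun m a' => ∀ σ e, st M σ e (N m) + st M σ e (N a') =
    (Hel.prodOf X i Lst).dim
  have hCo : ∀ m a', (baseW T.W L).tr _ (b a' * b m) ≠ 0 → Co m a' := by
    intro m a' h σ e
    rw [hb', hb'] at h
    rw [add_comm]
    exact st_dual M hpos h σ e
  let v : (baseW T.W L).H (Hel.prodOf X i Lst) :=
    ∑ m ∈ Finset.univ.filter (fun m => Co m a), g m a • b m
  -- the degree of `v`
  have hdeg : ∀ m, Co m a → ((N m).map fun y => dg (BB M) y.1).sum =
      2 * (Hel.prodOf X i Lst).dim - ((N a).map fun y => dg (BB M) y.1).sum := by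
    intro m hm
    have h1 := hm σ₀ true
    have h2 := hm σ₀ false
    have h3 := st_add M hpos σ₀ (N m)
    have h4 := st_add M hpos σ₀ (N a)
    have h5 : ((N m).map fun y => dg (BB M) y.1).sum =
      ((N m).map fun y => (M y.1.1).B.deg y.1.2).sum := rfl
    have h6 : ((N a).map fun y => dg (BB M) y.1).sum =
      ((N a).map fun y => (M y.1.1).B.deg y.1.2).sum := rfl
    rw [h5, h6]
    omega
  have hv : v ∈ (baseW T.W L).gr _
      (2 * (Hel.prodOf X i Lst).dim - ((N a).map fun y => dg (BB M) y.1).sum) := by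
    refine Submodule.sum_mem _ fun m hm => Submodule.smul_mem _ _ ?_
    rw [← hdeg m (Finset.mem_filter.1 hm).2, hb']
    exact lwf_gr _
  have htr : ∀ a', (baseW T.W L).tr _ (b a' * v) = if a' = a then 1 else 0 := by
    intro a'
    by_cases hsame : ∀ σ e, st M σ e (N a') = st M σ e (N a)
    · rw [← hg a a']
      show (baseW T.W L).tr _ (b a' *
        ∑ m ∈ Finset.univ.filter (fun m => Co m a), g m a • b m) = _
      rw [Finset.mul_sum, map_sum, Finset.mul_sum, map_sum, Finset.sum_filter]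
      refine Finset.sum_congr rfl fun m _ => ?_
      split_ifs with h
      · rfl
      · rw [mul_smul_comm, map_smul]
        by_cases h0 : (baseW T.W L).tr _ (b a' * b m) = 0
        · rw [h0, smul_zero]
        · exfalso
          apply h
          intro σ e
          rw [← hsame σ e]
          exact hCo m a' h0 σ e
    · have hne : a' ≠ a := by
        rintro rfl
        exact hsame fun _ _ => rfl
      rw [if_neg hne]
      show (baseW T.W L).tr _ (b a' *
        ∑ m ∈ Finset.univ.filter (fun m => Co m a), g m a • b m) = _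
      rw [Finset.mul_sum, map_sum]
      refine Finset.sum_eq_zero fun m hm => ?_
      rw [mul_smul_comm, map_smul]
      by_cases h0 : (baseW T.W L).tr _ (b a' * b m) = 0
      · rw [h0, smul_zero]
      · exfalso
        apply hsame
        intro σ e
        have h1 := hCo m a' h0 σ e
        have h2 := (Finset.mem_filter.1 hm).2 σ e
        omega
  have hword : zw v (lwf (BB M) C) ∈ (clL G L).C _ := by
    show zw (∑ m ∈ Finset.univ.filter (fun m => Co m a), g m a • b m) (lwf (BB M) C) ∈ _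
    rw [zw_sum]
    refine Submodule.sum_mem _ fun m hm => ?_
    rw [zw_smul, hb']
    refine Submodule.smul_mem _ _ (word_mem M hAlg _ _ fun σ => ?_)
    have h1 := (Finset.mem_filter.1 hm).2 σ true
    have h2 := (Finset.mem_filter.1 hm).2 σ false
    have h3 := hwt σ
    omega
  refine ⟨_, hword, fun Z u => ?_⟩
  rw [contr_sum, Finset.sum_eq_single a]
  · rw [contr_zw (lwf_gr _) hv, ← hb', htr, if_pos rfl, one_smul]
  · intro a' _ hne
    rw [contr_zw (lwf_gr _) hv, ← hb', htr, if_neg hne, zero_smul]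
  · intro h
    exact absurd (Finset.mem_univ _) h

include hpos in
/-- The weights of the components of a combination of Hodge classes which are not killed by an
operator of bounded level. -/
lemma bound_lev {κ : Type} [Fintype κ] {N : κ → List (Lt X ι P)} (hN : WB ops X ι P κ N)
    {ℓ : ℕ} (g : T.W.H Z →ₗ[T.W.K] T.W.H Z')
    (hlev : ∀ (p q : ℤ) (x : (baseW T.W ℂ).H Z), x ∈ T.pq Z p q → (ℓ : ℤ) < |p - q| →
      gL ℂ g x = 0) {y : T.W.H (Z.prod P)}
    (hy : y ∈ Submodule.span T.W.K {c | ∃ J, AH.IsHodge T (Z.prod P) J c}) :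
    ∃ u : κ → (baseW T.W L).H Z, AH.em T.W L y = ∑ a, zw (u a) (lwf (BB M) (N a)) ∧
      ∀ a, gL L g (u a) ≠ 0 → ∀ σ : L →ₐ[T.W.K] ℂ,
        |lam (wt M) (↑((N a).map Sigma.fst) : Multiset (Σ i, ι i)) σ| ≤ (ℓ : ℕ) := by
  classical
  refine Submodule.span_induction (p := fun y _ => ∃ u : κ → (baseW T.W L).H Z,
    AH.em T.W L y = ∑ a, zw (u a) (lwf (BB M) (N a)) ∧ ∀ a, gL L g (u a) ≠ 0 →
      ∀ σ : L →ₐ[T.W.K] ℂ,
      |lam (wt M) (↑((N a).map Sigma.fst) : Multiset (Σ i, ι i)) σ| ≤ (ℓ : ℕ))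
    ?_ ?_ ?_ ?_ hy
  · rintro c ⟨J, hc⟩
    obtain ⟨b, hb'⟩ := hN _ (BB M)
    obtain ⟨z, hz⟩ := exists_dec (W := baseW T.W L) b (AH.em T.W L c)
    have hz' : AH.em T.W L c = ∑ a, zw (z a) (lwf (BB M) (N a)) := by
      rw [hz]
      exact Finset.sum_congr rfl fun a _ => by rw [hb']
    refine ⟨z, hz', fun a ha σ => ?_⟩
    by_contra hcon
    have h1 := hlev _ _ _ (comp_types hpos M hN hc hz' a σ) (by
      rw [lam_eq] at hcon
      push Not at hcon
      have e : (J : ℤ) - st M σ true (N a) - (J - st M σ false (N a)) =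
        -(st M σ true (N a) - st M σ false (N a)) := by ring
      rw [e, abs_neg]
      exact hcon)
    rw [gL_csH] at h1
    exact ha (csH_inj σ (h1.trans (map_zero _).symm))
  · exact ⟨fun _ => 0, by simp [zw_zero, AH.em_zero], fun a ha => absurd (map_zero _) ha⟩
  · rintro x y _ _ ⟨u, hu, hu'⟩ ⟨v, hv, hv'⟩
    refine ⟨fun a => u a + v a, ?_, fun a ha σ => ?_⟩
    · rw [AH.em_add, hu, hv, ← Finset.sum_add_distrib]
      exact Finset.sum_congr rfl fun a _ => (zw_add _ _ _).symm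
    · by_cases h : gL L g (u a) = 0
      · refine hv' a (fun h' => ha ?_) σ
        show gL L g (u a + v a) = 0
        rw [map_add, h, h', add_zero]
      · exact hu' a h σ
  · rintro t x _ ⟨u, hu, hu'⟩
    refine ⟨fun a => (show (baseW T.W L).K from algebraMap T.W.K L t) • u a, ?_,
      fun a ha σ => hu' a (fun h => ha ?_) σ⟩
    · have h1 : AH.em T.W L (t • x) = (show (baseW T.W L).K from algebraMap T.W.K L t) •
          AH.em T.W L x := by
        show (1 : L) ⊗ₜ[T.W.K] (t • x) = (algebraMap T.W.K L t) • ((1 : L) ⊗ₜ[T.W.K] x)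
        rw [TensorProduct.tmul_smul, algebraMap_smul]
      rw [h1, hu, Finset.smul_sum]
      exact Finset.sum_congr rfl fun a _ => (zw_smul _ _ _).symm
    · show gL L g ((show (baseW T.W L).K from algebraMap T.W.K L t) • u a) = 0
      rw [map_smul, h, smul_zero]

include hpos in
/-- **Numerically trivial classes in the image of a correspondence of bounded level.** -/
theorem ncd_arb [∀ i, Finite (ι i)] (σ₀ : L →ₐ[T.W.K] ℂ)
    (hAlg : ∀ R : Multiset (Σ i, ι i), toZ R ∈ Hel.Rel (wt M) 0 →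
      AlgS (clL (algCl T.W) L) (BB M) R)
    (hG : ∀ Y, ∀ y ∈ algSpan T.W Y, y ∈ Submodule.span T.W.K {c | ∃ J, AH.IsHodge T Y J c})
    {ℓ : ℕ} {i0 : I} {L' : List I}
    (hb : ∀ R : Multiset (Σ i, ι i), (∀ σ, |lam (wt M) R σ| ≤ (ℓ : ℕ)) →
      ∃ b : List (Σ i, ι i), b.map Sigma.fst = i0 :: L' ∧ lamL (wt M) b = lam (wt M) R)
    {γ : T.W.H (Z'.prod Z)} (hγ : γ ∈ algSpan T.W (Z'.prod Z))
    (hlev : ∀ (p q : ℤ) (x : (baseW T.W ℂ).H Z), x ∈ T.pq Z p q → (ℓ : ℤ) < |p - q| →
      gL ℂ (act γ) x = 0)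
    (hZ : ∀ c ∈ algSpan T.W (Z.prod (Hel.prodOf X i0 L')),
      (∀ d ∈ algSpan T.W (Z'.prod (Hel.prodOf X i0 L')), T.W.tr _ (lin (act γ) _ c * d) = 0) →
        lin (act γ) _ c = 0)
    (i : I) (Lst : List I) {c : T.W.H (Z.prod (Hel.prodOf X i Lst))}
    (hc : c ∈ algSpan T.W (Z.prod (Hel.prodOf X i Lst)))
    (hn : ∀ d ∈ algSpan T.W (Z'.prod (Hel.prodOf X i Lst)), T.W.tr _ (lin (act γ) _ c * d) = 0) :
    lin (act γ) _ c = 0 := by
  classical
  obtain ⟨κ, hκ, N, hN⟩ := exists_WB (ops := ops) (X := X) (ι := ι) Lst i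
  cases nonempty_fintype κ
  obtain ⟨b, hb'⟩ := hN _ (BB M)
  obtain ⟨z, hz', hz''⟩ := bound_lev hpos M hN (act γ) hlev (hG _ c hc)
  have hlin : AH.em T.W L (lin (act γ) _ c) =
      ∑ a, zw (gL L (act γ) (z a)) (lwf (BB M) (N a)) := by
    rw [← gL_em, ← lin_em, hz', map_sum]
    exact Finset.sum_congr rfl fun a _ => lin_zw _ _ _
  have hx : (∑ a, zw (z a) (lwf (BB M) (N a))) ∈ (clL (algCl T.W) L).C _ := by
    rw [← hz']
    exact em_SG (G := algSpan T.W _) hc
  have hy : (∑ a, zw (gL L (act γ) (z a)) (lwf (BB M) (N a))) ∈ numZ (baseW T.W L) _ := by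
    rw [← hlin]
    have h0 : lin (act γ) _ c ∈ algSpan T.W (Z'.prod (Hel.prodOf X i Lst)) := by
      rw [← contr_lin]
      exact contr_mem (algCl T.W) hγ hc
    refine ⟨clL_le _ (em_SG (G := algSpan T.W _) h0), mem_transc.2 fun d hd => ?_⟩
    refine algSpan_induction (p := fun d =>
      (baseW T.W L).tr _ (AH.em T.W L (lin (act γ) _ c) * d) = 0) ?_ ?_ ?_ ?_ hd
    · rw [mul_zero, map_zero]
    · intro x y hx hy; rw [mul_add, map_add, hx, hy, add_zero]
    · intro t x hx; rw [mul_smul_comm, map_smul, hx, smul_zero]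
    · intro l w hw
      have h1 := hn _ (cl_mem_algSpan hw)
      have h2 : (baseW T.W L).cl _ w = AH.em T.W L (T.W.cl _ w) := rfl
      rw [h2, ← AH.em_mul, AH.em_tr, h1]
      exact map_zero (algebraMap T.W.K L)
  apply AH.em_injective (W := T.W) (L := L)
  rw [hlin]
  refine Finset.sum_eq_zero fun a _ => ?_
  by_cases hz0 : gL L (act γ) (z a) = 0
  · rw [hz0, zw_zero]
  exfalso
  obtain ⟨b1, hb1, hb2⟩ := hb (↑((N a).map Sigma.fst)) (hz'' a hz0)
  match b1, hb1, hb2 with
  | l :: b2, hb1, hb2 =>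
    rw [List.map_cons] at hb1
    obtain ⟨h1, h2⟩ := List.cons.inj hb1
    subst h1
    subst h2
    obtain ⟨C, hC1, hC2, _⟩ := isCan_prod' (BB M) b2 l
    have hwt : ∀ σ, st M σ true (N a) - st M σ false (N a) = st M σ true C - st M σ false C := by
      intro σ
      rw [← lam_eq, ← hb2, ← lam_eq, hC1, lamL_coe]
    obtain ⟨y, hy1, hy2⟩ := exists_word hpos M σ₀ hAlg b hb' (C := C) a hwt
    have h5 := contr_mem (clL (algCl T.W) L) hx hy1
    have h6 := contr_numZ hy (clL_le _ hy1)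
    rw [hy2] at h5 h6
    have h7 : gL L (lin (act γ) (Hel.prodOf X l.1 (b2.map Sigma.fst))) (zw (z a) (lwf (BB M) C)) =
        zw (gL L (act γ) (z a)) (lwf (BB M) C) := by
      rw [← lin_em, lin_zw]
    have h8 := kernel_ext (lin (act γ) (Hel.prodOf X l.1 (b2.map Sigma.fst))) hZ
      (x := zw (z a) (lwf (BB M) C)) h5 (fun d hd => by
        rw [h7]
        exact mem_transc.1 h6.2 _ (clL_le _ (em_SG (G := algSpan T.W _) hd)))
    rw [h7] at h8
    exact zw_ne hz0 hC2 h8

end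

end Pool.Agent.R936.Vh
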